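import Pool.Agent.H699R2.OMV.Cols

namespace Pool.Agent.H699R2.OMV

open Finset

variable {n : ℕ}

/-! ## mismatches of lists -/

/-- number of positions of the first list at which the second list does not have the same entry -/
def mism {A : Type} [DecidableEq A] : List A → List A → ℕ
  | [], _ => 0
  | _ :: l, [] => 1 + mism l []
  | a :: l, b :: l' => (if a = b then 0 else 1) + mism l l'

lemma mism_eq {A : Type} [DecidableEq A] (l : List A) : ∀ l' : List A,
    mism l l' = ∑ τ ∈ range l.length, (if l[τ]? = l'[τ]? then 0 else 1) := by
  induction l with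
  | nil => intro l'; cases l' <;> simp [mism]
  | cons a l ih =>
    intro l'
    cases l' with
    | nil =>
      simp only [mism, List.length_cons]
      rw [Finset.sum_range_succ', ih []]
      simp [add_comm]
    | cons b l' =>
      simp only [mism, List.length_cons]
      rw [Finset.sum_range_succ', ih l']
      simp [add_comm]

namespace Prog
variable {A W O O' : Type}

def bind (f : O → Prog A W O') : Prog A W O → Prog A W O'
  | done o => f o
  | probe a k => probe a (fun c => bind f (k c))

lemma out_bind (f : O → Prog A W O') (P : Prog A W O) (m : A → W) :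
    out (bind f P) m = out (f (out P m)) m := by
  induction P with
  | done o => rfl
  | probe a k ih => simp only [bind, out]; exact ih _

lemma addrs_bind (f : O → Prog A W O') (P : Prog A W O) (m : A → W) :
    addrs (bind f P) m = addrs P m ++ addrs (f (out P m)) m := by
  induction P with
  | done o => rfl
  | probe a k ih => simp only [bind, out, addrs, List.cons_append]; rw [ih]

def record : Prog A W O → List (A × W) → Prog A W (O × List (A × W))
  | done o, acc => done (o, acc)
  | probe a k, acc => probe a (fun c => record (k c) (acc ++ [(a, c)]))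

lemma out_record (P : Prog A W O) (m : A → W) : ∀ acc,
    out (record P acc) m = (out P m, acc ++ (addrs P m).map (fun a => (a, m a))) := by
  induction P with
  | done o => intro acc; simp [record, out, addrs]
  | probe a k ih => intro acc; simp only [record, out, addrs]; rw [ih]; simp

lemma addrs_record (P : Prog A W O) (m : A → W) : ∀ acc,
    addrs (record P acc) m = addrs P m := by
  induction P with
  | done o => intro acc; rfl
  | probe a k ih => intro acc; simp only [record, addrs]; rw [ih]

def shadow [DecidableEq A] : Prog A W O → List (A × W) → Prog A W O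
  | done o, _ => done o
  | probe a k, [] => probe a (fun c => shadow (k c) [])
  | probe a k, p :: L => if a = p.1 then shadow (k p.2) L else probe a (fun c => shadow (k c) L)

lemma shadow_spec [DecidableEq A] (P : Prog A W O) (m : A → W) : ∀ L : List (A × W),
    (∀ p ∈ L, m p.1 = p.2) → out (shadow P L) m = out P m ∧
      (addrs (shadow P L) m).length = mism (addrs P m) (L.map Prod.fst) := by
  induction P with
  | done o => intro L _; cases L <;> simp [shadow, out, addrs, mism]
  | probe a k ih =>
    intro L hL
    cases L with
    | nil =>
      have := ih (m a) [] (by simp)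
      simp only [shadow, out, addrs, List.length_cons, List.map_nil, mism]
      simp only [List.map_nil] at this
      exact ⟨this.1, by rw [this.2]; omega⟩
    | cons p L =>
      have hp : m p.1 = p.2 := hL p (by simp)
      have hL' : ∀ p ∈ L, m p.1 = p.2 := fun q hq => hL q (by simp [hq])
      by_cases h : a = p.1
      · have := ih p.2 L hL'
        simp only [shadow, h, if_true, out, addrs, hp, List.map_cons, mism]
        exact ⟨this.1, by rw [this.2]; simp⟩
      · have := ih (m a) L hL'
        simp only [shadow, h, if_false, out, addrs, List.map_cons, mism, List.length_cons]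
        exact ⟨this.1, by rw [this.2]; omega⟩

def runAll [DecidableEq A] {ι : Type} (P : ι → Prog A W O) (L : List (A × W)) :
    List ι → Prog A W (List O)
  | [] => done []
  | i :: is => bind (fun o => bind (fun os => done (o :: os)) (runAll P L is)) (shadow (P i) L)

lemma runAll_spec [DecidableEq A] {ι : Type} (P : ι → Prog A W O) (L : List (A × W)) (m : A → W)
    (hL : ∀ p ∈ L, m p.1 = p.2) (is : List ι) :
    out (runAll P L is) m = is.map (fun i => out (P i) m) ∧
    (addrs (runAll P L is) m).length =
      (is.map (fun i => mism (addrs (P i) m) (L.map Prod.fst))).sum := by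
  induction is with
  | nil => simp [runAll, out, addrs]
  | cons i is ih =>
    have h1 := shadow_spec (P i) m L hL
    constructor
    · simp only [runAll, out_bind, out, List.map_cons, ih.1, h1.1]
    · simp only [runAll, addrs_bind, addrs, List.length_append, List.map_cons, List.sum_cons,
        List.length_nil, out_bind, ih.2, h1.2]
      simp

def comb [DecidableEq A] {ι : Type} (P0 : Prog A W O) (P : ι → Prog A W O) (is : List ι) :
    Prog A W (O × List O) :=
  bind (fun oL => bind (fun os => done (oL.1, os)) (runAll P oL.2 is)) (record P0 [])

lemma comb_spec [DecidableEq A] {ι : Type} (P0 : Prog A W O) (P : ι → Prog A W O) (is : List ι)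
    (m : A → W) :
    out (comb P0 P is) m = (out P0 m, is.map (fun i => out (P i) m)) ∧
    (addrs (comb P0 P is) m).length =
      (addrs P0 m).length + (is.map (fun i => mism (addrs (P i) m) (addrs P0 m))).sum := by
  have hL : ∀ p ∈ (addrs P0 m).map (fun a => (a, m a)), m p.1 = p.2 := by
    intro p hp
    rw [List.mem_map] at hp
    obtain ⟨a, _, rfl⟩ := hp
    rfl
  have h1 := runAll_spec P ((addrs P0 m).map (fun a => (a, m a))) m hL is
  have h2 : ((addrs P0 m).map (fun a => (a, m a))).map Prod.fst = addrs P0 m := by
    rw [List.map_map]
    exact List.map_id _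
  rw [h2] at h1
  constructor
  · simp only [comb, out_bind, out_record, List.nil_append, out, h1.1]
  · simp only [comb, addrs_bind, addrs_record, out_record, List.nil_append, out_bind, addrs,
      List.length_append, h1.2, List.length_nil]
    simp

end Prog

/-- number of pairs (a set `S` of at least `g` indices, a family of vectors that vanishes on `S`) -/
lemma card_pairs_le (g : ℕ) [DecidableEq (Vec n)] :
    ((univ : Finset (Finset (Fin n) × (Fin n → Vec n))).filter
      (fun p => g ≤ p.1.card ∧ ∀ i ∈ p.1, p.2 i = 0)).card ≤ 2 ^ n * (2 ^ n) ^ (n - g) := by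
  classical
  set B := (univ : Finset (Finset (Fin n) × (Fin n → Vec n))).filter
      (fun p => g ≤ p.1.card ∧ ∀ i ∈ p.1, p.2 i = 0) with hB
  have h1 : B.card = ∑ S ∈ (univ : Finset (Finset (Fin n))), (B.filter (fun p => p.1 = S)).card :=
    Finset.card_eq_sum_card_fiberwise (fun p _ => Finset.mem_coe.mpr (Finset.mem_univ p.1))
  rw [h1]
  have h2 : ∀ S ∈ (univ : Finset (Finset (Fin n))),
      (B.filter (fun p => p.1 = S)).card ≤ (2 ^ n) ^ (n - g) := by
    intro S _
    by_cases hS : g ≤ S.card
    · have h3 : (B.filter (fun p => p.1 = S)).card ≤
          (Fintype.piFinset (fun i : Fin n => if i ∈ S then ({0} : Finset (Vec n)) else univ)).card := by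
        apply Finset.card_le_card_of_injOn (fun p => p.2)
        · intro p hp
          simp only [hB, Finset.coe_filter, Finset.mem_filter, Finset.mem_univ, true_and,
            Set.mem_setOf_eq] at hp
          simp only [Finset.mem_coe, Fintype.mem_piFinset]
          intro i
          by_cases hi : i ∈ S
          · simp only [hi, if_true, Finset.mem_singleton]
            exact hp.1.2 i (by rw [hp.2]; exact hi)
          · simp [hi]
        · intro p hp p' hp' h
          simp only [Finset.coe_filter, Finset.mem_filter, Set.mem_setOf_eq] at hp hp'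
          exact Prod.ext (hp.2.trans hp'.2.symm) h
      refine h3.trans ?_
      rw [Fintype.card_piFinset]
      have h4 : ∀ i : Fin n, (if i ∈ S then ({0} : Finset (Vec n)) else univ).card =
          if i ∈ S then 1 else 2 ^ n := by
        intro i
        split_ifs
        · simp
        · simp [ZMod.card]
      simp only [h4]
      rw [Finset.prod_ite]
      simp only [Finset.prod_const_one, one_mul, Finset.prod_const]
      apply Nat.pow_le_pow_right (by positivity)
      have h5 : (univ.filter (fun i : Fin n => i ∉ S)) = Sᶜ := by
        ext i; simp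
      rw [h5, Finset.card_compl, Fintype.card_fin]
      omega
    · have : B.filter (fun p => p.1 = S) = ∅ := by
        apply Finset.filter_eq_empty_iff.mpr
        intro p hp h
        simp only [hB, Finset.mem_filter, Finset.mem_univ, true_and] at hp
        rw [h] at hp
        exact hS hp.1
      rw [this]
      simp
  refine (Finset.sum_le_sum h2).trans ?_
  simp

/-- The main counting lemma: few matrices can be handled with few probes. -/
lemma count_good {A W : Type} [Fintype W] [DecidableEq A] (G : (Mat n)ˣ) (m : Mat n → A → W)
    (P : Vec n → Prog A W (Vec n)) (v : Vec n) (d g : ℕ) [DecidableEq (Vec n)] :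
    ((univ : Finset (Mat n)).filter (fun M =>
      ((P v).addrs (m M)).length + ∑ i : Fin n,
        mism ((P (v + (↑G⁻¹ : Mat n).mulVec (Pi.single i 1))).addrs (m M)) ((P v).addrs (m M)) ≤ d ∧
      g ≤ ((univ : Finset (Fin n)).filter (fun i => (P v).out (m M) = M.mulVec v ∧
        (P (v + (↑G⁻¹ : Mat n).mulVec (Pi.single i 1))).out (m M) =
          M.mulVec (v + (↑G⁻¹ : Mat n).mulVec (Pi.single i 1)))).card)).card ≤
      (Fintype.card W + 1) ^ d * (2 ^ n * (2 ^ n) ^ (n - g)) := by
  classical
  set b : Fin n → Vec n := fun i => (↑G⁻¹ : Mat n).mulVec (Pi.single i 1) with hb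
  set good : Mat n → Finset (Fin n) := fun M =>
    (univ : Finset (Fin n)).filter (fun i => (P v).out (m M) = M.mulVec v ∧
        (P (v + b i)).out (m M) = M.mulVec (v + b i)) with hgood
  set S : Finset (Mat n) := (univ : Finset (Mat n)).filter (fun M =>
      ((P v).addrs (m M)).length + ∑ i : Fin n,
        mism ((P (v + b i)).addrs (m M)) ((P v).addrs (m M)) ≤ d ∧ g ≤ (good M).card) with hS
  set Q : Prog A W (Vec n × List (Vec n)) :=
    Prog.comb (P v) (fun i : Fin n => P (v + b i)) (List.finRange n) with hQ
  set cn : Mat n → List W := fun M => (Q.trans (fun _ => True) (m M)).map Prod.snd with hcn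
  set nf : Mat n → (Fin n → Vec n) := fun M i => if i ∈ good M then 0 else M.mulVec (b i) with hnf
  set K : Finset (List W) := S.image cn with hK
  have hlen : ∀ M ∈ S, (cn M).length ≤ d := by
    intro M hM
    simp only [hS, Finset.mem_filter, Finset.mem_univ, true_and] at hM
    simp only [hcn, List.length_map]
    rw [Prog.length_trans]
    have h1 : (Q.addrs (m M)).countP (fun _ => decide True) = (Q.addrs (m M)).length := by simp
    rw [h1, hQ, (Prog.comb_spec _ _ _ _).2]
    refine le_trans (le_of_eq ?_) hM.1
    congr 1
  have hKc : K.card ≤ (Fintype.card W + 1) ^ d := by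
    apply card_lists_le
    intro l hl
    rw [hK, Finset.mem_image] at hl
    obtain ⟨M, hM, rfl⟩ := hl
    exact hlen M hM
  have hinj : Set.InjOn (fun M => (cn M, (good M, nf M))) S := by
    intro M hM M' hM' h
    simp only [Prod.mk.injEq] at h
    obtain ⟨h1, h2, h3⟩ := h
    have hout := Prog.conts_agree (fun _ => True) Q (m M) (m M') (by simp) h1
    rw [hQ, (Prog.comb_spec _ _ _ _).1, (Prog.comb_spec _ _ _ _).1] at hout
    simp only [Prod.mk.injEq] at hout
    obtain ⟨ho1, ho2⟩ := hout
    have ho3 : ∀ i : Fin n, (P (v + b i)).out (m M') = (P (v + b i)).out (m M) := by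
      intro i
      have := List.map_inj_left.mp ho2 i (List.mem_finRange i)
      exact this
    have hcol : ∀ i : Fin n, M.mulVec (b i) = M'.mulVec (b i) := by
      intro i
      by_cases hi : i ∈ good M
      · have hi' : i ∈ good M' := by rw [← h2]; exact hi
        simp only [hgood, Finset.mem_filter, Finset.mem_univ, true_and] at hi hi'
        have e1 : M.mulVec (v + b i) = M'.mulVec (v + b i) := by
          rw [← hi.2, ← hi'.2, ho3]
        have e2 : M.mulVec v = M'.mulVec v := by
          rw [← hi.1, ← hi'.1, ho1]
        rw [Matrix.mulVec_add, Matrix.mulVec_add, e2] at e1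
        exact add_left_cancel e1
      · have hi' : i ∉ good M' := by rw [← h2]; exact hi
        have := congrFun h3 i
        simp only [hnf, hi, hi', if_false] at this
        exact this
    have h5 : M * (↑G⁻¹ : Mat n) = M' * (↑G⁻¹ : Mat n) := by
      ext r i
      have := congrFun (hcol i) r
      simp only [hb, Matrix.mulVec_mulVec] at this
      simpa using this
    calc M = M * (↑G⁻¹ : Mat n) * (G : Mat n) := by rw [mul_assoc, Units.inv_mul, mul_one]
      _ = M' * (↑G⁻¹ : Mat n) * (G : Mat n) := by rw [h5]
      _ = M' := by rw [mul_assoc, Units.inv_mul, mul_one]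
  have hmaps : Set.MapsTo (fun M => (cn M, (good M, nf M))) S
      (K ×ˢ ((univ : Finset (Finset (Fin n) × (Fin n → Vec n))).filter
      (fun p => g ≤ p.1.card ∧ ∀ i ∈ p.1, p.2 i = 0)) : Finset _) := by
    intro M hM
    have hM' := hM
    simp only [hS, Finset.coe_filter, Finset.mem_univ, true_and, Set.mem_setOf_eq] at hM'
    simp only [Finset.coe_product, Set.mem_prod, Finset.mem_coe, Finset.mem_filter,
      Finset.mem_univ, true_and]
    refine ⟨Finset.mem_image_of_mem _ (Finset.mem_coe.mp hM), hM'.2, ?_⟩
    intro i hi
    simp only [hnf, hi, if_true]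
  have := Finset.card_le_card_of_injOn _ hmaps hinj
  rw [Finset.card_product] at this
  exact this.trans (Nat.mul_le_mul hKc (card_pairs_le g))

end Pool.Agent.H699R2.OMV
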