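import Pool.Agent.H699R2.OMV.Addr

namespace Pool.Agent.H699R2.OMV

open Finset

variable {n : ℕ}

section addr

variable {Ω A W : Type} [Fintype Ω] [Fintype W]

/-- shift the `q`-th vector of a stream in the `i`-th direction -/
def shift (G : List (Vec n) → (Mat n)ˣ) (q i : Fin n) (vs : Fin n → Vec n) : Fin n → Vec n :=
  Function.update vs q (flipCoord (G (before vs q)) i (vs q))

lemma before_shift (G : List (Vec n) → (Mat n)ˣ) (q i : Fin n) (vs : Fin n → Vec n) :
    before (shift G q i vs) q = before vs q := before_update _ _ _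

lemma shift_apply (G : List (Vec n) → (Mat n)ˣ) (q i : Fin n) (vs : Fin n → Vec n) :
    shift G q i vs q = flipCoord (G (before vs q)) i (vs q) := by simp [shift]

lemma vec_add_self (x : Vec n) : x + x = 0 := by
  funext j
  have : ∀ a : ZMod 2, a + a = 0 := by decide
  exact this _

lemma shift_invol (G : List (Vec n) → (Mat n)ˣ) (q i : Fin n) :
    Function.Involutive (shift G q i) := by
  intro vs
  have h1 := before_shift G q i vs
  have : shift G q i (shift G q i vs) = Function.update (shift G q i vs) q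
    (flipCoord (G (before (shift G q i vs) q)) i ((shift G q i vs) q)) := rfl
  rw [this, h1, shift_apply]
  unfold flipCoord
  rw [add_assoc, vec_add_self, add_zero]
  simp [shift]

lemma sum_shift (G : List (Vec n) → (Mat n)ˣ) (q i : Fin n) (F : (Fin n → Vec n) → ℝ) :
    ∑ vs, F (shift G q i vs) = ∑ vs, F vs :=
  Equiv.sum_comp (shift_invol G q i).toPerm F

open Classical in
/-- probes plus mismatches -/
noncomputable def zcount (alg : Alg n Ω A W) (G : List (Vec n) → (Mat n)ˣ) (ω : Ω) (M : Mat n)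
    (vs : Fin n → Vec n) (q : Fin n) : ℕ :=
  (alg.probes ω M vs q).length +
    ∑ i : Fin n, mism (alg.probes ω M (shift G q i vs) q) (alg.probes ω M vs q)

open Classical in
lemma addrStep (alg : Alg n Ω A W) (G : List (Vec n) → (Mat n)ˣ) (ω : Ω) (q : Fin n) (d g : ℕ)
    (hn : 0 < n) :
    NN n * ((n : ℝ) - g) ≤
      2 * n * (∑ M : Mat n, ∑ vs : Fin n → Vec n,
        (if alg.answer ω M vs q ≠ M.mulVec (vs q) then (1 : ℝ) else 0)) +
      n * (∑ M : Mat n, ∑ vs : Fin n → Vec n,
        (if d < zcount alg G ω M vs q then (1 : ℝ) else 0)) +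
      n * ((Fintype.card (Fin n → Vec n) : ℝ) *
        (((Fintype.card W + 1 : ℕ) : ℝ) ^ d * ((2 : ℝ) ^ n * ((2 : ℝ) ^ n) ^ (n - g)))) := by
  set wr : Mat n → (Fin n → Vec n) → ℝ := fun M vs =>
    (if alg.answer ω M vs q ≠ M.mulVec (vs q) then (1 : ℝ) else 0) with hwr
  set lg : Mat n → (Fin n → Vec n) → ℝ := fun M vs =>
    (if d < zcount alg G ω M vs q then (1 : ℝ) else 0) with hlg
  set good : Mat n → (Fin n → Vec n) → Finset (Fin n) := fun M vs => univ.filter (fun i =>
    alg.answer ω M vs q = M.mulVec (vs q) ∧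
    alg.answer ω M (shift G q i vs) q = M.mulVec (shift G q i vs q)) with hgood
  set sm : Mat n → (Fin n → Vec n) → ℝ := fun M vs =>
    (if zcount alg G ω M vs q ≤ d ∧ g ≤ (good M vs).card then (1 : ℝ) else 0) with hsm
  have hwr0 : ∀ M vs, 0 ≤ wr M vs := by intro M vs; simp only [hwr]; positivity
  have hlg0 : ∀ M vs, 0 ≤ lg M vs := by intro M vs; simp only [hlg]; positivity
  have hsm0 : ∀ M vs, 0 ≤ sm M vs := by intro M vs; simp only [hsm]; positivity
  have hn' : (0 : ℝ) < n := by exact_mod_cast hn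
  -- the number of good indices
  have h1 : ∀ M vs, (n : ℝ) ≤ (good M vs).card + n * wr M vs + ∑ i : Fin n, wr M (shift G q i vs) := by
    intro M vs
    by_cases hw : alg.answer ω M vs q = M.mulVec (vs q)
    · have h2 : ((good M vs).card : ℝ) = ∑ i : Fin n, (1 - wr M (shift G q i vs)) := by
        have : ((good M vs).card : ℝ) = ∑ i : Fin n, (if i ∈ good M vs then (1 : ℝ) else 0) := by
          simp
        rw [this]
        apply Finset.sum_congr rfl
        intro i _
        simp only [hgood, Finset.mem_filter, Finset.mem_univ, true_and, hw, hwr]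
        by_cases h3 : alg.answer ω M (shift G q i vs) q = M.mulVec (shift G q i vs q)
        · simp [h3]
        · simp [h3]
      rw [h2, Finset.sum_sub_distrib]
      have := hwr0 M vs
      simp only [Finset.sum_const, Finset.card_univ, Fintype.card_fin, nsmul_eq_mul, mul_one]
      nlinarith
    · have h2 : wr M vs = 1 := by simp [hwr, hw]
      rw [h2]
      have h3 : 0 ≤ ∑ i : Fin n, wr M (shift G q i vs) := Finset.sum_nonneg (fun i _ => hwr0 _ _)
      have h4 : (0 : ℝ) ≤ (good M vs).card := by positivity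
      linarith
  -- pointwise inequality
  have h2 : ∀ M vs, (n : ℝ) - g ≤ n * wr M vs + ∑ i : Fin n, wr M (shift G q i vs) +
      n * lg M vs + n * sm M vs := by
    intro M vs
    have h3 := h1 M vs
    by_cases hg : g ≤ (good M vs).card
    · by_cases hz : d < zcount alg G ω M vs q
      · have : lg M vs = 1 := by simp [hlg, hz]
        rw [this]
        have h4 : 0 ≤ ∑ i : Fin n, wr M (shift G q i vs) := Finset.sum_nonneg (fun i _ => hwr0 _ _)
        have h5 := hwr0 M vs
        have h6 := hsm0 M vs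
        have h7 : (0 : ℝ) ≤ g := by positivity
        nlinarith
      · have : sm M vs = 1 := by simp [hsm, hg, not_lt.mp hz]
        rw [this]
        have h4 : 0 ≤ ∑ i : Fin n, wr M (shift G q i vs) := Finset.sum_nonneg (fun i _ => hwr0 _ _)
        have h5 := hwr0 M vs
        have h6 := hlg0 M vs
        have h7 : (0 : ℝ) ≤ g := by positivity
        nlinarith
    · push Not at hg
      have h4 : ((good M vs).card : ℝ) ≤ g := by exact_mod_cast hg.le
      have h6 := hlg0 M vs
      have h7 := hsm0 M vs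
      nlinarith
  -- sum of sm
  have h3 : ∀ vs : Fin n → Vec n, ∑ M : Mat n, sm M vs ≤
      ((Fintype.card W + 1 : ℕ) : ℝ) ^ d * ((2 : ℝ) ^ n * ((2 : ℝ) ^ n) ^ (n - g)) := by
    intro vs
    have hc := count_good (G (before vs q)) (fun M => alg.mem ω M (before vs q))
      (fun v => alg.prog ω (before vs q) v) (vs q) d g
    have h4 : ∑ M : Mat n, sm M vs = (((univ : Finset (Mat n)).filter (fun M =>
        zcount alg G ω M vs q ≤ d ∧ g ≤ (good M vs).card)).card : ℝ) := by
      simp only [hsm]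
      rw [Finset.sum_ite]
      simp
    rw [h4]
    have h5 : ((univ : Finset (Mat n)).filter (fun M =>
        zcount alg G ω M vs q ≤ d ∧ g ≤ (good M vs).card)).card ≤
        (Fintype.card W + 1) ^ d * (2 ^ n * (2 ^ n) ^ (n - g)) := by
      refine le_trans (Finset.card_le_card ?_) hc
      intro M hM
      simp only [Finset.mem_filter, Finset.mem_univ, true_and] at hM ⊢
      obtain ⟨ha, hb⟩ := hM
      constructor
      · unfold zcount Alg.probes at ha
        simp only [before_shift, shift_apply] at ha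
        exact ha
      · simp only [hgood, Alg.answer, before_shift, shift_apply] at hb
        exact hb
    exact_mod_cast h5
  have h4 := Finset.sum_le_sum (fun (M : Mat n) (_ : M ∈ univ) =>
    Finset.sum_le_sum (fun (vs : Fin n → Vec n) (_ : vs ∈ univ) => h2 M vs))
  rw [sum_const_NN] at h4
  simp only [Finset.sum_add_distrib, ← Finset.mul_sum] at h4
  have h5 : ∀ M : Mat n, ∑ vs : Fin n → Vec n, ∑ i : Fin n, wr M (shift G q i vs) =
      n * ∑ vs : Fin n → Vec n, wr M vs := by
    intro M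
    rw [Finset.sum_comm]
    simp only [sum_shift G q _ (fun vs => wr M vs)]
    simp
  simp only [h5, ← Finset.mul_sum] at h4
  have h6 : ∑ M : Mat n, ∑ vs : Fin n → Vec n, sm M vs ≤ (Fintype.card (Fin n → Vec n) : ℝ) *
        (((Fintype.card W + 1 : ℕ) : ℝ) ^ d * ((2 : ℝ) ^ n * ((2 : ℝ) ^ n) ^ (n - g))) := by
    rw [Finset.sum_comm]
    refine (Finset.sum_le_sum (fun vs _ => h3 vs)).trans ?_
    simp
  have h7 : (n : ℝ) * ∑ M : Mat n, ∑ vs : Fin n → Vec n, sm M vs ≤
      n * ((Fintype.card (Fin n → Vec n) : ℝ) *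
        (((Fintype.card W + 1 : ℕ) : ℝ) ^ d * ((2 : ℝ) ^ n * ((2 : ℝ) ^ n) ^ (n - g)))) :=
    mul_le_mul_of_nonneg_left h6 hn'.le
  linarith

/-- weighted version -/
lemma addrStepB (alg : Alg n Ω A W) (μ : Ω → ℝ) (hμ : IsProb μ) (hs : alg.SolvesOnAverage μ)
    (G : Ω → List (Vec n) → (Mat n)ˣ) (q : Fin n) (d g : ℕ) (hn : 0 < n)
    (hg : (g : ℝ) ≤ n / 6)
    (hd : ((Fintype.card W + 1 : ℕ) : ℝ) ^ d * 2 ^ 4 * 2 ^ n ≤ ((2 : ℝ) ^ n) ^ g) (hgn : g ≤ n) :
    NN n * ((d + 1) * (5 / 48)) ≤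
      ∑ M : Mat n, ∑ vs : Fin n → Vec n, ∑ ω, μ ω * (zcount alg (G ω) ω M vs q : ℝ) := by
  classical
  have hNN := NN_pos n
  have hn' : (0 : ℝ) < n := by exact_mod_cast hn
  have hcard : (Fintype.card (Mat n) : ℝ) = ((2 : ℝ) ^ n) ^ n := by
    have : Fintype.card (Mat n) = (2 ^ n) ^ n := by
      have : Fintype.card (Fin n → Vec n) = (2 ^ n) ^ n := by simp [ZMod.card]
      exact this
    rw [this]; push_cast; ring
  have hC : (Fintype.card (Fin n → Vec n) : ℝ) *
      (((Fintype.card W + 1 : ℕ) : ℝ) ^ d * ((2 : ℝ) ^ n * ((2 : ℝ) ^ n) ^ (n - g))) ≤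
      NN n / 16 := by
    unfold NN
    rw [hcard]
    have h1 : ((2 : ℝ) ^ n) ^ n = ((2 : ℝ) ^ n) ^ g * ((2 : ℝ) ^ n) ^ (n - g) := by
      rw [← pow_add]
      congr 1
      omega
    rw [h1]
    have h2 : (0 : ℝ) < ((2 : ℝ) ^ n) ^ (n - g) := by positivity
    have h3 : ((Fintype.card W + 1 : ℕ) : ℝ) ^ d * ((2 : ℝ) ^ n * ((2 : ℝ) ^ n) ^ (n - g)) ≤
        ((2 : ℝ) ^ n) ^ g * ((2 : ℝ) ^ n) ^ (n - g) / 16 := by
      have : (2 : ℝ) ^ 4 = 16 := by norm_num
      rw [this] at hd
      nlinarith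
    have h4 : (0 : ℝ) ≤ (Fintype.card (Fin n → Vec n) : ℝ) := by positivity
    nlinarith [mul_le_mul_of_nonneg_left h3 h4]
  have h1 : ∀ ω, μ ω * (NN n * ((n : ℝ) * (37 / 48) )) ≤ μ ω * (2 * n *
      (∑ M : Mat n, ∑ vs : Fin n → Vec n,
        (if alg.answer ω M vs q ≠ M.mulVec (vs q) then (1 : ℝ) else 0)) +
      n * (∑ M : Mat n, ∑ vs : Fin n → Vec n,
        (if d < zcount alg (G ω) ω M vs q then (1 : ℝ) else 0))) := by
    intro ω
    apply mul_le_mul_of_nonneg_left _ (hμ.nonneg ω)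
    have h2 := addrStep alg (G ω) ω q d g hn
    have h3 := mul_le_mul_of_nonneg_left hC hn'.le
    have h4 : NN n * ((n : ℝ) * (5 / 6)) ≤ NN n * ((n : ℝ) - g) := by
      apply mul_le_mul_of_nonneg_left _ hNN.le
      linarith
    have h5 : NN n * ((n : ℝ) * (5 / 6)) - n * (NN n / 16) = NN n * ((n : ℝ) * (37 / 48)) := by
      ring
    linarith
  have h2 := Finset.sum_le_sum (fun ω (_ : ω ∈ (univ : Finset Ω)) => h1 ω)
  rw [← Finset.sum_mul, hμ.sum_one, one_mul] at h2
  have hsw : ∀ f : Ω → Mat n → (Fin n → Vec n) → ℝ,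
      ∑ ω, μ ω * ∑ M : Mat n, ∑ vs : Fin n → Vec n, f ω M vs =
      ∑ M : Mat n, ∑ vs : Fin n → Vec n, ∑ ω, μ ω * f ω M vs := by
    intro f
    simp only [Finset.mul_sum]
    rw [Finset.sum_comm]
    apply Finset.sum_congr rfl
    intro M _
    rw [Finset.sum_comm]
  have h3 : ∀ f g : Ω → ℝ, ∑ ω, μ ω * (2 * n * f ω + n * g ω) =
      2 * n * ∑ ω, μ ω * f ω + n * ∑ ω, μ ω * g ω := by
    intro f g
    rw [Finset.mul_sum, Finset.mul_sum, ← Finset.sum_add_distrib]
    apply Finset.sum_congr rfl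
    intro ω _
    ring
  rw [h3, hsw, hsw] at h2
  have h4 := wrong_sum alg μ hs q
  have h4' := mul_le_mul_of_nonneg_left h4 (by positivity : (0 : ℝ) ≤ 2 * n)
  have h5 : (n : ℝ) * (NN n * (5 / 48)) ≤ n * ∑ M : Mat n, ∑ vs : Fin n → Vec n, ∑ ω, μ ω *
        (if d < zcount alg (G ω) ω M vs q then (1 : ℝ) else 0) := by
    have h6 : NN n * ((n : ℝ) * (37 / 48)) - 2 * n * (NN n * (1 / 3)) = n * (NN n * (5 / 48)) := by
      ring
    linarith
  have h6 := le_of_mul_le_mul_left h5 hn'
  calc NN n * ((d + 1) * (5 / 48)) = (d + 1) * (NN n * (5 / 48)) := by ring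
    _ ≤ (d + 1) * ∑ M : Mat n, ∑ vs : Fin n → Vec n, ∑ ω, μ ω *
        (if d < zcount alg (G ω) ω M vs q then (1 : ℝ) else 0) := by gcongr
    _ ≤ _ := by
        rw [Finset.mul_sum]
        apply Finset.sum_le_sum
        intro M _
        rw [Finset.mul_sum]
        apply Finset.sum_le_sum
        intro vs _
        rw [Finset.mul_sum]
        apply Finset.sum_le_sum
        intro ω _
        rw [mul_left_comm]
        apply mul_le_mul_of_nonneg_left _ (hμ.nonneg ω)
        split_ifs with h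
        · rw [mul_one]
          exact_mod_cast h
        · simp

lemma mism_sum_le (alg : Alg n Ω A W) (G : Ω → List (Vec n) → (Mat n)ˣ)
    (ω : Ω) (M : Mat n) (vs : Fin n → Vec n) (q : Fin n) [DecidableEq A] :
    ∑ i : Fin n, mism (alg.probes ω M vs q) (alg.probes ω M (shift (G ω) q i vs) q) ≤
      ∑ τ ∈ range (alg.probes ω M vs q).length,
        (alg.addrSens (G ω (before vs q)) ω M (before vs q) (vs q) τ).card := by
  classical
  simp only [mism_eq]
  rw [Finset.sum_comm]
  apply Finset.sum_le_sum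
  intro τ _
  have h1 : ∀ i : Fin n, (if (alg.probes ω M vs q)[τ]? =
      (alg.probes ω M (shift (G ω) q i vs) q)[τ]? then 0 else 1) ≤
      (if i ∈ alg.addrSens (G ω (before vs q)) ω M (before vs q) (vs q) τ then 1 else 0) := by
    intro i
    by_cases hi : i ∈ alg.addrSens (G ω (before vs q)) ω M (before vs q) (vs q) τ
    · simp only [hi, if_true]
      split_ifs <;> simp
    · have h2 : (alg.probes ω M vs q)[τ]? = (alg.probes ω M (shift (G ω) q i vs) q)[τ]? := by
        unfold Alg.addrSens at hi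
        simp only [Finset.mem_filter, Finset.mem_univ, true_and, ne_eq, not_not] at hi
        unfold Alg.probes
        rw [before_shift, shift_apply]
        exact hi.symm
      simp [hi, h2]
  refine (Finset.sum_le_sum (fun i _ => h1 i)).trans ?_
  simp

lemma sum_zcount_le (alg : Alg n Ω A W) (μ : Ω → ℝ) (hμ : IsProb μ)
    (G : Ω → List (Vec n) → (Mat n)ˣ) :
    ∑ q : Fin n, ∑ M : Mat n, ∑ vs : Fin n → Vec n, ∑ ω,
      μ ω * (zcount alg (G ω) ω M vs q : ℝ) ≤
    ∑ M : Mat n, ∑ vs : Fin n → Vec n, alg.addrWork μ G M vs := by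
  classical
  have h1 : ∀ (q : Fin n) (M : Mat n) (ω : Ω),
      ∑ vs : Fin n → Vec n, (zcount alg (G ω) ω M vs q : ℝ) ≤
      ∑ vs : Fin n → Vec n, ∑ τ ∈ range (alg.probes ω M vs q).length,
        (1 + ((alg.addrSens (G ω (before vs q)) ω M (before vs q) (vs q) τ).card : ℝ)) := by
    intro q M ω
    have h2 : ∑ vs : Fin n → Vec n, (zcount alg (G ω) ω M vs q : ℝ) =
        ∑ vs : Fin n → Vec n, (((alg.probes ω M vs q).length : ℝ) + ∑ i : Fin n,
          (mism (alg.probes ω M vs q) (alg.probes ω M (shift (G ω) q i vs) q) : ℝ)) := by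
      unfold zcount
      push_cast
      rw [Finset.sum_add_distrib, Finset.sum_add_distrib]
      congr 1
      rw [Finset.sum_comm]
      rw [Finset.sum_comm (f := fun (vs : Fin n → Vec n) (i : Fin n) =>
        (mism (alg.probes ω M vs q) (alg.probes ω M (shift (G ω) q i vs) q) : ℝ))]
      apply Finset.sum_congr rfl
      intro i _
      have := sum_shift (G ω) q i (fun vs => (mism (alg.probes ω M vs q)
        (alg.probes ω M (shift (G ω) q i vs) q) : ℝ))
      rw [← this]
      apply Finset.sum_congr rfl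
      intro vs _
      rw [shift_invol (G ω) q i vs]
    rw [h2]
    apply Finset.sum_le_sum
    intro vs _
    have h3 := mism_sum_le alg G ω M vs q
    rw [Finset.sum_add_distrib]
    have h4 : ((∑ i : Fin n, mism (alg.probes ω M vs q)
        (alg.probes ω M (shift (G ω) q i vs) q) : ℕ) : ℝ) ≤
        ((∑ τ ∈ range (alg.probes ω M vs q).length, (alg.addrSens (G ω (before vs q)) ω M (before vs q) (vs q) τ).card : ℕ) : ℝ) := by
      exact_mod_cast h3
    push_cast at h4
    simp only [Finset.sum_const, Finset.card_range, nsmul_eq_mul, mul_one]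
    linarith
  have h2 : ∑ q : Fin n, ∑ M : Mat n, ∑ vs : Fin n → Vec n, ∑ ω,
      μ ω * (zcount alg (G ω) ω M vs q : ℝ) =
      ∑ q : Fin n, ∑ M : Mat n, ∑ ω, μ ω * ∑ vs : Fin n → Vec n,
        (zcount alg (G ω) ω M vs q : ℝ) := by
    apply Finset.sum_congr rfl; intro q _
    apply Finset.sum_congr rfl; intro M _
    rw [Finset.sum_comm]
    apply Finset.sum_congr rfl; intro ω _
    rw [Finset.mul_sum]
  have h3 : ∑ M : Mat n, ∑ vs : Fin n → Vec n, alg.addrWork μ G M vs =
      ∑ q : Fin n, ∑ M : Mat n, ∑ ω, μ ω * ∑ vs : Fin n → Vec n,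
        ∑ τ ∈ range (alg.probes ω M vs q).length, (1 + ((alg.addrSens (G ω (before vs q)) ω M (before vs q) (vs q) τ).card : ℝ)) := by
    unfold Alg.addrWork
    rw [Finset.sum_comm (s := (univ : Finset (Fin n)))]
    apply Finset.sum_congr rfl; intro M _
    rw [Finset.sum_comm]
    rw [Finset.sum_comm (s := (univ : Finset (Fin n)))]
    apply Finset.sum_congr rfl; intro ω _
    rw [← Finset.mul_sum, ← Finset.mul_sum]
    congr 1
    rw [Finset.sum_comm]
  rw [h2, h3]
  apply Finset.sum_le_sum; intro q _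
  apply Finset.sum_le_sum; intro M _
  apply Finset.sum_le_sum; intro ω _
  exact mul_le_mul_of_nonneg_left (h1 q M ω) (hμ.nonneg ω)

theorem addr_bound (alg : Alg n Ω A W) (μ : Ω → ℝ) (hμ : IsProb μ) (hs : alg.SolvesOnAverage μ)
    (G : Ω → List (Vec n) → (Mat n)ˣ) (hn : 24 ≤ n) :
    (n : ℝ) ^ 3 / (120 * Real.logb 2 (Fintype.card W + 2)) ≤ avg (alg.addrWork μ G) := by
  have hlog1 : 1 ≤ Real.logb 2 ((Fintype.card W : ℝ) + 2) := by
    rw [Real.le_logb_iff_rpow_le (by norm_num) (by positivity)]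
    norm_num
  have hnR : (24 : ℝ) ≤ n := by exact_mod_cast hn
  have hNN := NN_pos n
  rw [avg_eq, div_le_div_iff₀ (by positivity) hNN]
  set g : ℕ := n / 6 with hg
  have hg1 : (g : ℝ) ≤ n / 6 := by
    have : g * 6 ≤ n := Nat.div_mul_le_self n 6
    have : (g : ℝ) * 6 ≤ n := by exact_mod_cast this
    linarith
  have hg2 : (n : ℝ) - 5 ≤ 6 * g := by
    have : n ≤ 6 * g + 5 := by omega
    have : (n : ℝ) ≤ 6 * g + 5 := by exact_mod_cast this
    linarith
  have hgn : g ≤ n := Nat.div_le_self n 6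
  have hx : (n : ℝ) ^ 2 / 12 ≤ n * g - n - 4 := by nlinarith
  obtain ⟨d, hd1, hd2⟩ := exists_T ((n : ℝ) * g - n) (Fintype.card W + 2) 4
    (by push_cast; nlinarith) (by omega)
  have hd3 : ((Fintype.card W + 1 : ℕ) : ℝ) ^ d * 2 ^ 4 * 2 ^ n ≤ ((2 : ℝ) ^ n) ^ g := by
    have h1 : ((Fintype.card W + 1 : ℕ) : ℝ) ^ d ≤ ((Fintype.card W + 2 : ℕ) : ℝ) ^ d := by
      gcongr
      norm_num
    have h2 : (2 : ℝ) ^ ((n : ℝ) * g - n) * 2 ^ n = ((2 : ℝ) ^ n) ^ g := by
      rw [← Real.rpow_natCast 2 n, ← Real.rpow_add (by norm_num), ← Real.rpow_natCast _ g,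
        ← Real.rpow_mul (by norm_num)]
      congr 1
      ring
    rw [← h2]
    have h3 : (0 : ℝ) < 2 ^ n := by positivity
    have h4 : ((Fintype.card W + 1 : ℕ) : ℝ) ^ d * 2 ^ 4 ≤ (2 : ℝ) ^ ((n : ℝ) * g - n) := by
      refine le_trans ?_ hd1
      gcongr
    exact mul_le_mul_of_nonneg_right h4 h3.le
  have hB : ∀ q : Fin n, NN n * ((d + 1) * (5 / 48)) ≤
      ∑ M : Mat n, ∑ vs : Fin n → Vec n, ∑ ω, μ ω * (zcount alg (G ω) ω M vs q : ℝ) :=
    fun q => addrStepB alg μ hμ hs G q d g (by omega) hg1 hd3 hgn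
  have hsum : ∑ q : Fin n, NN n * (((d : ℝ) + 1) * (5 / 48)) ≤
      ∑ M : Mat n, ∑ vs : Fin n → Vec n, alg.addrWork μ G M vs :=
    (Finset.sum_le_sum (fun q _ => hB q)).trans (sum_zcount_le alg μ hμ G)
  simp only [Finset.sum_const, Finset.card_univ, Fintype.card_fin, nsmul_eq_mul] at hsum
  have hL2 : (n : ℝ) ^ 2 / 12 ≤ Real.logb 2 ((Fintype.card W : ℝ) + 2) * (d + 1) := by
    have := hd2
    push_cast at this
    linarith
  calc (n : ℝ) ^ 3 * NN n = 12 * (n * NN n * ((n : ℝ) ^ 2 / 12)) := by ring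
    _ ≤ 12 * (n * NN n * (Real.logb 2 ((Fintype.card W : ℝ) + 2) * (d + 1))) := by gcongr
    _ = (576 / 5) * (Real.logb 2 ((Fintype.card W : ℝ) + 2) *
        (n * (NN n * (((d : ℝ) + 1) * (5 / 48))))) := by ring
    _ ≤ 120 * (Real.logb 2 ((Fintype.card W : ℝ) + 2) *
        (n * (NN n * (((d : ℝ) + 1) * (5 / 48))))) := by
        apply mul_le_mul_of_nonneg_right (by norm_num) (by positivity)
    _ ≤ 120 * (Real.logb 2 ((Fintype.card W : ℝ) + 2) *
        (∑ M, ∑ vs, alg.addrWork μ G M vs)) := by gcongr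
    _ = _ := by ring

end addr

end Pool.Agent.H699R2.OMV
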