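import Pool.Agent.H699R2.OMV.Rows

namespace Pool.Agent.H699R2.OMV

open Finset

variable {n : ℕ}

namespace Prog
variable {A W O : Type}

lemma conts_agree (dep : A → Prop) [DecidablePred dep] (P : Prog A W O) (m m' : A → W)
    (h : ∀ a, ¬ dep a → m' a = m a)
    (hc : (trans dep P m).map Prod.snd = (trans dep P m').map Prod.snd) : out P m' = out P m := by
  induction P with
  | done o => rfl
  | probe a k ih =>
    by_cases ha : dep a
    · have h0 : ∀ m : A → W, trans dep (probe a k) m = (a, m a) :: trans dep (k (m a)) m := by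
        intro m; simp [trans, ha]
      rw [h0, h0] at hc
      simp only [List.map_cons, List.cons.injEq] at hc
      obtain ⟨h1, h2⟩ := hc
      simp only [out]
      rw [← h1] at h2 ⊢
      exact ih (m a) h2
    · have h0 : ∀ m : A → W, trans dep (probe a k) m = trans dep (k (m a)) m := by
        intro m; simp [trans, ha]
      rw [h0, h0] at hc
      simp only [out]
      rw [h a ha] at hc ⊢
      exact ih (m a) hc

end Prog

lemma replaceCol_mul (G : (Mat n)ˣ) (i : Fin n) (M : Mat n) (x : Vec n) :
    replaceCol G i M x * (G : Mat n) = (M * (G : Mat n)).updateCol i x := by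
  unfold replaceCol
  rw [mul_assoc, Units.inv_mul, mul_one]

lemma replaceCol_idem (G : (Mat n)ˣ) (i : Fin n) (M : Mat n) (x y : Vec n) :
    replaceCol G i (replaceCol G i M x) y = replaceCol G i M y := by
  unfold replaceCol
  rw [mul_assoc _ (↑G⁻¹ : Mat n), Units.inv_mul, mul_one, Matrix.updateCol_idem]

lemma sum_replaceCol (G : (Mat n)ˣ) (i : Fin n) (F : Mat n → ℝ) :
    ∑ M : Mat n, ∑ x : Vec n, F (replaceCol G i M x) = (2 : ℝ) ^ n * ∑ M, F M := by
  have := sum_upd (fun (M : Mat n) (x : Vec n) => replaceCol G i M x)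
    (fun M => fun r => (M * (G : Mat n)) r i)
    (fun a x => by simp only [replaceCol_mul]; ext r; simp)
    (fun a x y => by
      show replaceCol G i (replaceCol G i a x) y = replaceCol G i a y
      unfold replaceCol
      rw [mul_assoc _ (↑G⁻¹ : Mat n), Units.inv_mul, mul_one, Matrix.updateCol_idem])
    (fun a => by
      simp only [replaceCol]
      have : (a * (G : Mat n)).updateCol i (fun r => (a * (G : Mat n)) r i) = a * (G : Mat n) := by
        ext r c
        by_cases h : c = i
        · subst h; simp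
        · simp [Matrix.updateCol_ne h]
      rw [this, mul_assoc, Units.mul_inv, mul_one]) F
  rw [this]
  simp [ZMod.card]

lemma updateCol_mulVec (N : Mat n) (i : Fin n) (x u : Vec n) (hu : u i = 1) :
    (N.updateCol i x).mulVec u = (N.updateCol i 0).mulVec u + x := by
  funext r
  simp only [Matrix.mulVec, dotProduct, Pi.add_apply]
  rw [← Finset.add_sum_erase _ _ (Finset.mem_univ i), ← Finset.add_sum_erase (a := i) _
    (fun c => (N.updateCol i 0) r c * u c) (Finset.mem_univ i)]
  have : ∀ c ∈ (univ : Finset (Fin n)).erase i, (N.updateCol i x) r c * u c =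
      (N.updateCol i 0) r c * u c := by
    intro c hc
    have hc' := Finset.ne_of_mem_erase hc
    rw [Matrix.updateCol_ne hc', Matrix.updateCol_ne hc']
  rw [Finset.sum_congr rfl this]
  simp [hu]
  ring

section cols

variable {Ω A W : Type} [Fintype Ω] [Fintype W]

/-- `J` contains the columns to which the cells are sensitive -/
def ColValid (alg : Alg n Ω A W) (G : Ω → List (Vec n) → (Mat n)ˣ)
    (J : Ω → Mat n → List (Vec n) → A → Finset (Fin n)) : Prop :=
  ∀ ω M h a i x, i ∉ J ω M h a → alg.mem ω (replaceCol (G ω h) i M x) h a = alg.mem ω M h a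

/-- for half of the streams the coordinate is one -/
lemma half_streams (G : List (Vec n) → (Mat n)ˣ) (q i : Fin n) :
    ∑ vs : Fin n → Vec n, (if ((↑(G (before vs q))⁻¹ : Mat n).mulVec (vs q)) i = 1 then (1 : ℝ) else 0)
      = (Fintype.card (Fin n → Vec n) : ℝ) / 2 := by
  set u : (Fin n → Vec n) → ZMod 2 := fun vs => ((↑(G (before vs q))⁻¹ : Mat n).mulVec (vs q)) i
    with hu
  set φ : (Fin n → Vec n) → (Fin n → Vec n) := fun vs =>
    Function.update vs q (vs q + (G (before vs q) : Mat n).mulVec (Pi.single i 1)) with hφ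
  have hbef : ∀ vs, before (φ vs) q = before vs q := fun vs => by
    simp only [hφ]; exact before_update _ _ _
  have h2 : ∀ x : Vec n, x + x = 0 := by
    intro x; funext j
    have : ∀ a : ZMod 2, a + a = 0 := by decide
    exact this _
  have hinv : Function.Involutive φ := by
    intro vs
    have h1 := hbef vs
    have : φ (φ vs) = Function.update (φ vs) q ((φ vs) q +
        (G (before (φ vs) q) : Mat n).mulVec (Pi.single i 1)) := rfl
    rw [this, h1]
    have h3 : (φ vs) q = vs q + (G (before vs q) : Mat n).mulVec (Pi.single i 1) := by simp [hφ]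
    rw [h3, add_assoc, h2, add_zero]
    simp [hφ]
  have hushift : ∀ vs, u (φ vs) = u vs + 1 := by
    intro vs
    have h3 : (φ vs) q = vs q + (G (before vs q) : Mat n).mulVec (Pi.single i 1) := by simp [hφ]
    simp only [hu, hbef, h3, Matrix.mulVec_add, Matrix.mulVec_mulVec, Units.inv_mul,
      Matrix.one_mulVec, Pi.add_apply, Pi.single_eq_same]
  have hsum1 : ∑ vs : Fin n → Vec n, (if u vs = 1 then (1 : ℝ) else 0) =
      ∑ vs : Fin n → Vec n, (if u (φ vs) = 1 then (1 : ℝ) else 0) :=
    (Equiv.sum_comp hinv.toPerm (fun vs => (if u vs = 1 then (1 : ℝ) else 0))).symm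
  have hsum2 : ∀ vs, (if u vs = 1 then (1 : ℝ) else 0) + (if u (φ vs) = 1 then (1 : ℝ) else 0) = 1 := by
    intro vs
    rw [hushift]
    rcases zmod2_cases (u vs) with h | h <;> simp [h]
  have hsum3 : ∑ vs : Fin n → Vec n, ((if u vs = 1 then (1 : ℝ) else 0) +
      (if u (φ vs) = 1 then (1 : ℝ) else 0)) = (Fintype.card (Fin n → Vec n) : ℝ) := by
    simp only [hsum2]
    simp
  rw [Finset.sum_add_distrib, ← hsum1] at hsum3
  linarith

open Classical in
lemma colStep (alg : Alg n Ω A W) (G : Ω → List (Vec n) → (Mat n)ˣ)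
    (J : Ω → Mat n → List (Vec n) → A → Finset (Fin n))
    (hJ : ColValid alg G J) (ω : Ω) (q i : Fin n) (T : ℕ) :
    NN n * ((1 / 2) * (1 - ((Fintype.card W + 1 : ℕ) : ℝ) ^ T / (2 : ℝ) ^ n)) ≤
      (∑ M : Mat n, ∑ vs : Fin n → Vec n,
        (if alg.answer ω M vs q ≠ M.mulVec (vs q) then (1 : ℝ) else 0)) +
      ∑ M : Mat n, ∑ vs : Fin n → Vec n, (if T < tcount alg J ω M vs q i then (1 : ℝ) else 0) := by
  set u : (Fin n → Vec n) → ZMod 2 :=
    fun vs => ((↑(G ω (before vs q))⁻¹ : Mat n).mulVec (vs q)) i with hu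
  set F : Mat n → (Fin n → Vec n) → ℝ := fun M vs =>
      (if alg.answer ω M vs q ≠ M.mulVec (vs q) then (1 : ℝ) else 0) +
        (if T < tcount alg J ω M vs q i then (1 : ℝ) else 0) with hF
  have hF0 : ∀ M vs, 0 ≤ F M vs := by
    intro M vs
    simp only [hF]
    positivity
  have key : ∀ (M : Mat n) (vs : Fin n → Vec n),
      (if u vs = 1 then (1 : ℝ) else 0) * ((2 : ℝ) ^ n - ((Fintype.card W + 1 : ℕ) : ℝ) ^ T) ≤
      ∑ x : Vec n, F (replaceCol (G ω (before vs q)) i M x) vs := by
    intro M vs
    by_cases hone : u vs = 1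
    · simp only [hone, if_true, one_mul]
      set h := before vs q with hh
      set m : Vec n → A → W := fun x => alg.mem ω (replaceCol (G ω h) i M x) h with hm
      set P := alg.prog ω h (vs q) with hP
      set bad : Finset (Vec n) := univ.filter (fun x => P.out (m x) ≠ (replaceCol (G ω h) i M x).mulVec (vs q))
        with hbad
      set dep : A → Prop := fun a => ∃ x x', m x a ≠ m x' a with hdep
      set lng : Finset (Vec n) := univ.filter (fun x => T <
        (P.addrs (m x)).countP (fun a => decide (i ∈ J ω (replaceCol (G ω h) i M x) h a))) with hlng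
      set good : Finset (Vec n) := univ.filter (fun x => P.out (m x) = (replaceCol (G ω h) i M x).mulVec (vs q)
        ∧ (P.addrs (m x)).countP (fun a => decide (dep a)) ≤ T) with hgood
      have hmono : ∀ x, (P.addrs (m x)).countP (fun a => decide (dep a)) ≤
          (P.addrs (m x)).countP (fun a => decide (i ∈ J ω (replaceCol (G ω h) i M x) h a)) := by
        intro x
        apply List.countP_mono_left
        intro a _ ha
        simp only [decide_eq_true_eq] at ha ⊢
        by_contra hr
        obtain ⟨x1, x2, hxx⟩ := ha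
        have hinv : ∀ y, m y a = m x a := by
          intro y
          have := hJ ω (replaceCol (G ω h) i M x) h a i y hr
          rw [replaceCol_idem] at this
          exact this
        exact hxx ((hinv x1).trans (hinv x2).symm)
      have hcount : (2 : ℝ) ^ n ≤ bad.card + lng.card + good.card := by
        have h1 : (univ : Finset (Vec n)) ⊆ (bad ∪ lng) ∪ good := by
          intro x _
          simp only [hbad, hlng, hgood, Finset.mem_union, Finset.mem_filter, Finset.mem_univ,
            true_and]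
          by_cases h1 : P.out (m x) = (replaceCol (G ω h) i M x).mulVec (vs q)
          · by_cases h2 : T < (P.addrs (m x)).countP
                (fun a => decide (i ∈ J ω (replaceCol (G ω h) i M x) h a))
            · left; right; exact h2
            · right; exact ⟨h1, (hmono x).trans (not_lt.mp h2)⟩
          · left; left; exact h1
        have h2 := (Finset.card_le_card h1).trans
          ((Finset.card_union_le _ _).trans (Nat.add_le_add_right (Finset.card_union_le _ _) _))
        have h3 : (univ : Finset (Vec n)).card = 2 ^ n := by simp [ZMod.card]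
        rw [h3] at h2
        exact_mod_cast h2
      have hgoodcard : good.card ≤ (Fintype.card W + 1) ^ T := by
        set cn : Vec n → List W := fun x => (P.trans dep (m x)).map Prod.snd
          with hcn
        have hinj : Set.InjOn cn good := by
          intro x hx x' hx' hxx
          simp only [hgood, Finset.coe_filter, Finset.mem_univ, true_and, Set.mem_setOf_eq] at hx hx'
          have hout := Prog.conts_agree dep P (m x) (m x') (by
            intro a ha
            simp only [hdep] at ha
            push Not at ha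
            exact ha x' x) hxx
          rw [hx.1, hx'.1] at hout
          have hconv : ∀ y : Vec n, (replaceCol (G ω h) i M y).mulVec (vs q) =
              ((M * (G ω h : Mat n)).updateCol i 0).mulVec ((↑(G ω h)⁻¹ : Mat n).mulVec (vs q)) + y := by
            intro y
            unfold replaceCol
            rw [← Matrix.mulVec_mulVec]
            exact updateCol_mulVec _ i y _ hone
          rw [hconv, hconv] at hout
          exact (add_left_cancel hout).symm
        have h1 : good.card = (good.image cn).card := (Finset.card_image_of_injOn hinj).symm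
        rw [h1]
        apply card_lists_le
        intro l hl
        rw [Finset.mem_image] at hl
        obtain ⟨x, hx, rfl⟩ := hl
        simp only [hgood, Finset.mem_filter, Finset.mem_univ, true_and] at hx
        simp only [hcn, List.length_map]
        rw [Prog.length_trans]
        exact hx.2
      have hsumF : ∑ x : Vec n, F (replaceCol (G ω h) i M x) vs = bad.card + lng.card := by
        simp only [hF]
        rw [Finset.sum_add_distrib, Finset.sum_ite, Finset.sum_ite]
        simp only [Finset.sum_const, nsmul_eq_mul, mul_one, Finset.sum_const_zero, add_zero,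
          mul_zero]
        rfl
      rw [hsumF]
      have : (good.card : ℝ) ≤ ((Fintype.card W + 1 : ℕ) : ℝ) ^ T := by exact_mod_cast hgoodcard
      linarith
    · simp only [hone, if_false, zero_mul]
      exact Finset.sum_nonneg (fun x _ => hF0 _ _)
  have hsum := Finset.sum_le_sum (fun (vs : Fin n → Vec n) (_ : vs ∈ univ) =>
    Finset.sum_le_sum (fun (M : Mat n) (_ : M ∈ univ) => key M vs))
  have hr : ∀ vs : Fin n → Vec n, ∑ M : Mat n, ∑ x : Vec n, F (replaceCol (G ω (before vs q)) i M x) vs =
      (2 : ℝ) ^ n * ∑ M, F M vs := fun vs => sum_replaceCol (G ω (before vs q)) i (fun M => F M vs)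
  simp only [hr] at hsum
  rw [← Finset.mul_sum] at hsum
  have hl : ∑ vs : Fin n → Vec n, ∑ _M : Mat n,
      (if u vs = 1 then (1 : ℝ) else 0) * ((2 : ℝ) ^ n - ((Fintype.card W + 1 : ℕ) : ℝ) ^ T) =
      NN n / 2 * ((2 : ℝ) ^ n - ((Fintype.card W + 1 : ℕ) : ℝ) ^ T) := by
    simp only [Finset.sum_const, nsmul_eq_mul, Finset.card_univ]
    rw [← Finset.mul_sum, ← Finset.sum_mul, half_streams (G ω) q i]
    unfold NN
    ring
  rw [hl] at hsum
  have h2 : (0 : ℝ) < 2 ^ n := by positivity
  have hFsum : ∑ vs : Fin n → Vec n, ∑ M : Mat n, F M vs =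
      (∑ M : Mat n, ∑ vs : Fin n → Vec n,
        (if alg.answer ω M vs q ≠ M.mulVec (vs q) then (1 : ℝ) else 0)) +
      ∑ M : Mat n, ∑ vs : Fin n → Vec n, (if T < tcount alg J ω M vs q i then (1 : ℝ) else 0) := by
    rw [Finset.sum_comm, ← Finset.sum_add_distrib]
    apply Finset.sum_congr rfl
    intro M _
    rw [← Finset.sum_add_distrib]
  rw [hFsum] at hsum
  have h3 : NN n / 2 * ((2 : ℝ) ^ n - ((Fintype.card W + 1 : ℕ) : ℝ) ^ T) =
      (2 : ℝ) ^ n * (NN n * ((1 / 2) * (1 - ((Fintype.card W + 1 : ℕ) : ℝ) ^ T / (2 : ℝ) ^ n))) := by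
    field_simp
  rw [h3] at hsum
  exact le_of_mul_le_mul_left hsum h2

open Classical in
lemma colStepB (alg : Alg n Ω A W) (μ : Ω → ℝ) (hμ : IsProb μ) (hs : alg.SolvesOnAverage μ)
    (G : Ω → List (Vec n) → (Mat n)ˣ) (J : Ω → Mat n → List (Vec n) → A → Finset (Fin n))
    (hJ : ColValid alg G J) (q i : Fin n) (T : ℕ)
    (hT : ((Fintype.card W + 1 : ℕ) : ℝ) ^ T / (2 : ℝ) ^ n ≤ 1 / 8) :
    NN n * ((T + 1) * (5 / 48)) ≤
      ∑ M : Mat n, ∑ vs : Fin n → Vec n, ∑ ω, μ ω * (tcount alg J ω M vs q i : ℝ) := by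
  have hNN := NN_pos n
  have h1 : ∀ ω, μ ω * (NN n * (7 / 16)) ≤ μ ω * ((∑ M : Mat n, ∑ vs : Fin n → Vec n,
        (if alg.answer ω M vs q ≠ M.mulVec (vs q) then (1 : ℝ) else 0)) +
      ∑ M : Mat n, ∑ vs : Fin n → Vec n, (if T < tcount alg J ω M vs q i then (1 : ℝ) else 0)) := by
    intro ω
    apply mul_le_mul_of_nonneg_left _ (hμ.nonneg ω)
    refine le_trans ?_ (colStep alg G J hJ ω q i T)
    apply mul_le_mul_of_nonneg_left _ hNN.le
    linarith
  have h2 := Finset.sum_le_sum (fun ω (_ : ω ∈ (univ : Finset Ω)) => h1 ω)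
  rw [← Finset.sum_mul, hμ.sum_one, one_mul] at h2
  simp only [mul_add] at h2
  rw [Finset.sum_add_distrib] at h2
  have hsw : ∀ f : Ω → Mat n → (Fin n → Vec n) → ℝ,
      ∑ ω, μ ω * ∑ M : Mat n, ∑ vs : Fin n → Vec n, f ω M vs =
      ∑ M : Mat n, ∑ vs : Fin n → Vec n, ∑ ω, μ ω * f ω M vs := by
    intro f
    simp only [Finset.mul_sum]
    rw [Finset.sum_comm]
    apply Finset.sum_congr rfl
    intro M _
    rw [Finset.sum_comm]
  rw [hsw, hsw] at h2
  have h4 := wrong_sum alg μ hs q
  have h5 : NN n * (5 / 48) ≤ ∑ M : Mat n, ∑ vs : Fin n → Vec n, ∑ ω, μ ω *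
        (if T < tcount alg J ω M vs q i then (1 : ℝ) else 0) := by linarith
  calc NN n * ((T + 1) * (5 / 48)) = (T + 1) * (NN n * (5 / 48)) := by ring
    _ ≤ (T + 1) * ∑ M : Mat n, ∑ vs : Fin n → Vec n, ∑ ω, μ ω *
        (if T < tcount alg J ω M vs q i then (1 : ℝ) else 0) := by gcongr
    _ ≤ _ := by
        rw [Finset.mul_sum]
        apply Finset.sum_le_sum
        intro M _
        rw [Finset.mul_sum]
        apply Finset.sum_le_sum
        intro vs _
        rw [Finset.mul_sum]
        apply Finset.sum_le_sum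
        intro ω _
        rw [mul_left_comm]
        apply mul_le_mul_of_nonneg_left _ (hμ.nonneg ω)
        split_ifs with h
        · rw [mul_one]
          exact_mod_cast h
        · simp

theorem col_bound (alg : Alg n Ω A W) (μ : Ω → ℝ) (hμ : IsProb μ) (hs : alg.SolvesOnAverage μ)
    (G : Ω → List (Vec n) → (Mat n)ˣ) (J : Ω → Mat n → List (Vec n) → A → Finset (Fin n))
    (hJ : ColValid alg G J) :
    (n : ℝ) ^ 2 * (n - 3) / (10 * Real.logb 2 (Fintype.card W + 2)) ≤
      avg (expDeps alg μ J) := by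
  have hlog1 : 1 ≤ Real.logb 2 ((Fintype.card W : ℝ) + 2) := by
    rw [Real.le_logb_iff_rpow_le (by norm_num) (by positivity)]
    norm_num
  have hcost0 : ∀ M vs, 0 ≤ expDeps alg μ J M vs := by
    intro M vs
    exact Finset.sum_nonneg (fun ω _ => mul_nonneg (hμ.nonneg ω) (by positivity))
  rw [avg_eq, div_le_div_iff₀ (by positivity) (NN_pos n)]
  by_cases hn : (n : ℝ) ≤ 3
  · have h1 : (n : ℝ) ^ 2 * (n - 3) ≤ 0 :=
      mul_nonpos_of_nonneg_of_nonpos (by positivity) (by linarith)
    have h2 : 0 ≤ ∑ M, ∑ vs, expDeps alg μ J M vs :=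
      Finset.sum_nonneg (fun M _ => Finset.sum_nonneg (fun vs _ => hcost0 M vs))
    have h3 := NN_pos n
    have h4 : (n : ℝ) ^ 2 * (n - 3) * NN n ≤ 0 := mul_nonpos_of_nonpos_of_nonneg h1 h3.le
    refine h4.trans ?_
    positivity
  push Not at hn
  obtain ⟨T, hT1, hT2⟩ := exists_T (n : ℝ) (Fintype.card W + 2) 3
    (by exact_mod_cast hn.le) (by omega)
  have hT3 : ((Fintype.card W + 1 : ℕ) : ℝ) ^ T / (2 : ℝ) ^ n ≤ 1 / 8 := by
    rw [div_le_iff₀ (by positivity)]
    have h1 : ((Fintype.card W + 1 : ℕ) : ℝ) ^ T ≤ ((Fintype.card W + 2 : ℕ) : ℝ) ^ T := by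
      gcongr
      norm_num
    rw [Real.rpow_natCast] at hT1
    have : (2 : ℝ) ^ 3 = 8 := by norm_num
    rw [this] at hT1
    linarith
  have hB : ∀ q r : Fin n, NN n * ((T + 1) * (5 / 48)) ≤
      ∑ M : Mat n, ∑ vs : Fin n → Vec n, ∑ ω, μ ω * (tcount alg J ω M vs q r : ℝ) :=
    fun q r => colStepB alg μ hμ hs G J hJ q r T hT3
  have hsum : ∑ q : Fin n, ∑ r : Fin n, NN n * (((T : ℝ) + 1) * (5 / 48)) ≤
      ∑ M : Mat n, ∑ vs : Fin n → Vec n, expDeps alg μ J M vs := by
    rw [← sum_tcount]
    exact Finset.sum_le_sum (fun q _ => Finset.sum_le_sum (fun r _ => hB q r))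
  have hconst : ∑ q : Fin n, ∑ r : Fin n, NN n * (((T : ℝ) + 1) * (5 / 48)) =
      NN n * ((n : ℝ) ^ 2 * ((T + 1) * (5 / 48))) := by
    simp only [Finset.sum_const, Finset.card_univ, Fintype.card_fin, nsmul_eq_mul]
    ring
  rw [hconst] at hsum
  have hL2 : (n : ℝ) - 3 ≤ Real.logb 2 ((Fintype.card W : ℝ) + 2) * (T + 1) := by
    have := hT2
    push_cast at this
    linarith
  have hNN := NN_pos n
  calc (n : ℝ) ^ 2 * (n - 3) * NN n ≤ (n : ℝ) ^ 2 *
        (Real.logb 2 ((Fintype.card W : ℝ) + 2) * (T + 1)) * NN n := by gcongr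
    _ = (48 / 5) * (Real.logb 2 ((Fintype.card W : ℝ) + 2) *
        (NN n * ((n : ℝ) ^ 2 * ((T + 1) * (5 / 48))))) := by ring
    _ ≤ 10 * (Real.logb 2 ((Fintype.card W : ℝ) + 2) *
        (NN n * ((n : ℝ) ^ 2 * ((T + 1) * (5 / 48))))) := by
        apply mul_le_mul_of_nonneg_right (by norm_num) (by positivity)
    _ ≤ 10 * (Real.logb 2 ((Fintype.card W : ℝ) + 2) *
        (∑ M, ∑ vs, expDeps alg μ J M vs)) := by gcongr
    _ = _ := by ring

end cols

end Pool.Agent.H699R2.OMV
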