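import Pool.Agent.H699R2.OMV.Model

namespace Pool.Agent.H699R2.OMV

open Finset

/-! ## averaging over updates -/

lemma sum_upd {α β : Type*} [Fintype α] [Fintype β] (upd : α → β → α) (get : α → β)
    (h1 : ∀ a x, get (upd a x) = x) (h2 : ∀ a x y, upd (upd a x) y = upd a y)
    (h3 : ∀ a, upd a (get a) = a) (F : α → ℝ) :
    ∑ a, ∑ x, F (upd a x) = (Fintype.card β : ℝ) * ∑ a, F a := by
  classical
  have e : ∑ p : α × β, F (upd p.1 p.2) = ∑ p : α × β, F p.1 := by
    refine Finset.sum_bij' (fun p _ => (upd p.1 p.2, get p.1)) (fun p _ => (upd p.1 p.2, get p.1))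
      ?_ ?_ ?_ ?_ ?_
    · intro p _; exact mem_univ _
    · intro p _; exact mem_univ _
    · intro p _; ext <;> simp [h1, h2, h3]
    · intro p _; ext <;> simp [h1, h2, h3]
    · intro p _; simp
  rw [← Fintype.sum_prod_type' (fun a x => F (upd a x))]
  rw [e, Fintype.sum_prod_type]
  simp [Finset.mul_sum]

lemma sum_update_fun {ι β : Type*} [Fintype ι] [DecidableEq ι] [Fintype β] (i : ι)
    (F : (ι → β) → ℝ) :
    ∑ f : ι → β, ∑ x : β, F (Function.update f i x) = (Fintype.card β : ℝ) * ∑ f, F f := by
  apply sum_upd (fun f x => Function.update f i x) (fun f => f i)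
  · intro a x; simp
  · intro a x y; simp
  · intro a; simp

/-! ## transcripts -/

namespace Prog
variable {A W O : Type}

/-- The probes (address and content) at cells satisfying `dep`. -/
def trans (dep : A → Prop) [DecidablePred dep] : Prog A W O → (A → W) → List (A × W)
  | done _, _ => []
  | probe a k, m => if dep a then (a, m a) :: trans dep (k (m a)) m else trans dep (k (m a)) m

lemma trans_agree (dep : A → Prop) [DecidablePred dep] (P : Prog A W O) (m m' : A → W)
    (h : ∀ a, ¬ dep a → m' a = m a) (hm : ∀ p ∈ trans dep P m, m' p.1 = p.2) :
    trans dep P m' = trans dep P m ∧ out P m' = out P m := by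
  induction P with
  | done o => exact ⟨rfl, rfl⟩
  | probe a k ih =>
    by_cases ha : dep a
    · have h0 : trans dep (probe a k) m = (a, m a) :: trans dep (k (m a)) m := by
        simp [trans, ha]
      rw [h0] at hm
      have hma : m' a = m a := hm (a, m a) (by simp)
      have := ih (m a) (fun p hp => hm p (by simp [hp]))
      constructor
      · simp [trans, ha, hma, this.1]
      · simp [out, hma, this.2]
    · have h0 : trans dep (probe a k) m = trans dep (k (m a)) m := by
        simp [trans, ha]
      rw [h0] at hm
      have hma : m' a = m a := h a ha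
      have := ih (m a) (fun p hp => hm p hp)
      constructor
      · simp [trans, ha, hma, this.1]
      · simp [out, hma, this.2]

lemma trans_mem (dep : A → Prop) [DecidablePred dep] (P : Prog A W O) (m : A → W) :
    ∀ p ∈ trans dep P m, m p.1 = p.2 := by
  induction P with
  | done o => simp [trans]
  | probe a k ih =>
    intro p hp
    by_cases ha : dep a
    · simp only [trans, ha, if_true, List.mem_cons] at hp
      rcases hp with hp | hp
      · rw [hp]
      · exact ih (m a) p hp
    · simp only [trans, ha, if_false] at hp
      exact ih (m a) p hp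

lemma length_trans (dep : A → Prop) [DecidablePred dep] (P : Prog A W O) (m : A → W) :
    (trans dep P m).length = (addrs P m).countP (fun a => decide (dep a)) := by
  induction P with
  | done o => simp [trans, addrs]
  | probe a k ih =>
    by_cases ha : dep a
    · simp [trans, addrs, ha, ih]
    · simp [trans, addrs, ha, ih]

end Prog

/-- Counting: a set of lists of length at most `T` over an alphabet with `s` letters has at most
`(s+1)^T` elements. -/
lemma card_lists_le {β : Type} [Fintype β] [DecidableEq (List β)] (K : Finset (List β)) (T : ℕ)
    (hK : ∀ l ∈ K, l.length ≤ T) : K.card ≤ (Fintype.card β + 1) ^ T := by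
  classical
  have : K.card ≤ (Finset.univ : Finset (Fin T → Option β)).card := by
    apply Finset.card_le_card_of_injOn (fun l => fun i : Fin T => l[i.1]?)
    · intro l _; simp
    · intro l hl l' hl' h
      have hl1 := hK l hl
      have hl2 := hK l' hl'
      apply List.ext_getElem?
      intro j
      by_cases hj : j < T
      · exact congrFun h ⟨j, hj⟩
      · rw [List.getElem?_eq_none (by omega), List.getElem?_eq_none (by omega)]
  simpa using this

end Pool.Agent.H699R2.OMV
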