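import Pool.Agent.H699R2.OMV.Core

namespace Pool.Agent.H699R2.OMV

open Finset

/-- The sign of a bit. -/
def sg (a : ZMod 2) : ℝ := if a = 0 then 1 else -1

lemma zmod2_cases (a : ZMod 2) : a = 0 ∨ a = 1 := by
  revert a; decide

lemma sg_add (a b : ZMod 2) : sg (a + b) = sg a * sg b := by
  rcases zmod2_cases a with rfl | rfl <;> rcases zmod2_cases b with rfl | rfl <;> simp [sg]
  · decide

lemma sg_mul_self (a : ZMod 2) : sg a * sg a = 1 := by
  rcases zmod2_cases a with rfl | rfl <;> simp [sg]

lemma sg_abs_le (a : ZMod 2) : |sg a| ≤ 1 := by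
  rcases zmod2_cases a with rfl | rfl <;> simp [sg]

lemma sg_eq (a b : ZMod 2) : sg a * sg b = if a = b then 1 else -1 := by
  rcases zmod2_cases a with rfl | rfl <;> rcases zmod2_cases b with rfl | rfl <;> simp [sg]

/-- Orthogonality of characters. -/
lemma sum_sg_dot {n : ℕ} (u : Vec n) :
    ∑ x : Vec n, sg (x ⬝ᵥ u) = if u = 0 then (2 : ℝ) ^ n else 0 := by
  classical
  by_cases hu : u = 0
  · subst hu
    simp [sg, ZMod.card]
  · simp only [hu, if_false]
    obtain ⟨i, hi⟩ : ∃ i, u i ≠ 0 := by
      by_contra h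
      push Not at h
      exact hu (funext h)
    have hi1 : u i = 1 := by
      rcases zmod2_cases (u i) with h | h
      · exact absurd h hi
      · exact h
    have key : ∑ x : Vec n, sg (x ⬝ᵥ u) = ∑ x : Vec n, sg ((x + Pi.single i 1) ⬝ᵥ u) := by
      exact (Fintype.sum_equiv (Equiv.addRight (Pi.single i (1 : ZMod 2))) _ _ (fun x => by simp)).symm
    have : ∀ x : Vec n, sg ((x + Pi.single i 1) ⬝ᵥ u) = - sg (x ⬝ᵥ u) := by
      intro x
      rw [add_dotProduct, sg_add]
      have : (Pi.single i (1 : ZMod 2) ⬝ᵥ u) = 1 := by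
        rw [single_dotProduct]; simp [hi1]
      rw [this]
      simp [sg]
    simp only [this, Finset.sum_neg_distrib] at key
    linarith

/-- The rectangle bound for the inner product (Lindsey's lemma). -/
lemma lindsey {n : ℕ} (X V : Finset (Vec n)) (s : Vec n → ℝ) (hs : ∀ v, |s v| ≤ 1) :
    ∑ x ∈ X, ∑ v ∈ V, s v * sg (x ⬝ᵥ v) ≤ Real.sqrt ((X.card : ℝ) * V.card * 2 ^ n) := by
  classical
  apply Real.le_sqrt_of_sq_le
  set g : Vec n → ℝ := fun x => ∑ v ∈ V, s v * sg (x ⬝ᵥ v) with hg
  have h1 : (∑ x ∈ X, g x) ^ 2 ≤ (X.card : ℝ) * ∑ x ∈ X, g x ^ 2 :=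
    sq_sum_le_card_mul_sum_sq
  have h2 : ∑ x ∈ X, g x ^ 2 ≤ ∑ x : Vec n, g x ^ 2 :=
    Finset.sum_le_sum_of_subset_of_nonneg (Finset.subset_univ X) (fun _ _ _ => sq_nonneg _)
  have h3 : ∑ x : Vec n, g x ^ 2 ≤ (V.card : ℝ) * 2 ^ n := by
    have : ∀ x : Vec n, g x ^ 2 = ∑ v ∈ V, ∑ w ∈ V, s v * s w * sg (x ⬝ᵥ (v + w)) := by
      intro x
      rw [sq, hg]
      simp only
      rw [Finset.sum_mul_sum]
      refine Finset.sum_congr rfl (fun v _ => Finset.sum_congr rfl (fun w _ => ?_))
      rw [dotProduct_add, sg_add]; ring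
    simp only [this]
    rw [Finset.sum_comm]
    have : ∀ v ∈ V, ∑ x : Vec n, ∑ w ∈ V, s v * s w * sg (x ⬝ᵥ (v + w)) ≤ (2 : ℝ) ^ n := by
      intro v hv
      rw [Finset.sum_comm]
      have : ∀ w ∈ V, ∑ x : Vec n, s v * s w * sg (x ⬝ᵥ (v + w)) =
          if w = v then s v * s v * 2 ^ n else 0 := by
        intro w _
        rw [← Finset.mul_sum, sum_sg_dot]
        by_cases hwv : w = v
        · subst hwv
          have : w + w = 0 := by
            funext i
            have : ∀ a : ZMod 2, a + a = 0 := by decide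
            exact this _
          simp [this]
        · have : v + w ≠ 0 := by
            intro h
            apply hwv
            funext i
            have h' := congrFun h i
            have : ∀ a b : ZMod 2, a + b = 0 → b = a := by decide
            exact this _ _ h'
          simp [this, hwv]
      rw [Finset.sum_congr rfl this, Finset.sum_ite_eq' V v]
      simp only [hv, if_true]
      have h4 : s v * s v ≤ 1 := by
        have := hs v
        have h5 := abs_mul_abs_self (s v)
        nlinarith [abs_nonneg (s v)]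
      have : (0 : ℝ) < 2 ^ n := by positivity
      nlinarith
    calc ∑ v ∈ V, ∑ x : Vec n, ∑ w ∈ V, s v * s w * sg (x ⬝ᵥ (v + w))
        ≤ ∑ v ∈ V, (2 : ℝ) ^ n := Finset.sum_le_sum this
      _ = (V.card : ℝ) * 2 ^ n := by simp
  calc (∑ x ∈ X, g x) ^ 2 ≤ (X.card : ℝ) * ∑ x ∈ X, g x ^ 2 := h1
    _ ≤ (X.card : ℝ) * ((V.card : ℝ) * 2 ^ n) := by
        apply mul_le_mul_of_nonneg_left (h2.trans h3) (by positivity)
    _ = (X.card : ℝ) * V.card * 2 ^ n := by ring

/-- Single-row lemma: programs `P v` that read cells `m x`, where only the cells in `dep` depend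
on `x`; the inner product of `x` and `v` cannot be computed with few probes to `dep`. -/
lemma core {n : ℕ} {A W O : Type} [Fintype A] [Fintype W] [DecidableEq (List (A × W))]
    (m : Vec n → A → W) (P : Vec n → Prog A W O) (g : O → ZMod 2)
    (dep : A → Prop) [DecidablePred dep] (hdep : ∀ a, ¬ dep a → ∀ x x', m x a = m x' a) (T : ℕ) :
    ((2 : ℝ) ^ n) ^ 2 ≤
      2 * ((univ.filter (fun p : Vec n × Vec n =>
          g ((P p.2).out (m p.1)) ≠ p.1 ⬝ᵥ p.2)).card : ℝ) +
      ((univ.filter (fun p : Vec n × Vec n =>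
          T < ((P p.2).addrs (m p.1)).countP (fun a => decide (dep a)))).card : ℝ) +
      Real.sqrt (((Fintype.card A * Fintype.card W + 1 : ℕ) : ℝ) ^ T * ((2 : ℝ) ^ n) ^ 3) := by
  classical
  set tr : Vec n × Vec n → List (A × W) := fun p => (P p.2).trans dep (m p.1) with htr
  set Q : Finset (Vec n × Vec n) := univ.filter (fun p => (tr p).length ≤ T) with hQ
  set K : Finset (List (A × W)) := Q.image tr with hK
  set f : Vec n × Vec n → ℝ := fun p => sg (g ((P p.2).out (m p.1))) * sg (p.1 ⬝ᵥ p.2) with hf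
  -- cardinality of K
  have hKcard : K.card ≤ (Fintype.card A * Fintype.card W + 1) ^ T := by
    have := card_lists_le K T (by
      intro l hl
      rw [hK, Finset.mem_image] at hl
      obtain ⟨p, hp, rfl⟩ := hl
      rw [hQ, Finset.mem_filter] at hp
      exact hp.2)
    simpa [Fintype.card_prod] using this
  -- sums over fibres
  have hfib : ∀ κ ∈ K, ∑ p ∈ Q.filter (fun p => tr p = κ), f p ≤
      Real.sqrt (((univ.filter (fun p : Vec n × Vec n => tr p = κ)).card : ℝ) * 2 ^ n) := by
    intro κ hκ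
    set X : Finset (Vec n) := univ.filter (fun x => ∀ q ∈ κ, m x q.1 = q.2) with hX
    set V : Finset (Vec n) := univ.filter (fun v => ∃ x, tr (x, v) = κ) with hV
    have hlen : κ.length ≤ T := by
      rw [hK, Finset.mem_image] at hκ
      obtain ⟨p, hp, rfl⟩ := hκ
      rw [hQ, Finset.mem_filter] at hp
      exact hp.2
    -- rectangle property
    have hrect : ∀ x x' v, tr (x, v) = κ → (∀ q ∈ κ, m x' q.1 = q.2) →
        tr (x', v) = κ ∧ (P v).out (m x') = (P v).out (m x) := by
      intro x x' v h1 h2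
      have := Prog.trans_agree dep (P v) (m x) (m x') (fun a ha => hdep a ha x' x)
        (fun p hp => h2 p (by rw [← h1]; exact hp))
      exact ⟨this.1.trans h1, this.2⟩
    have hset : univ.filter (fun p : Vec n × Vec n => tr p = κ) = X ×ˢ V := by
      ext ⟨x, v⟩
      simp only [Finset.mem_filter, Finset.mem_univ, true_and, Finset.mem_product, hX, hV]
      constructor
      · intro h
        refine ⟨?_, x, h⟩
        intro q hq
        rw [← h] at hq
        exact Prog.trans_mem dep (P v) (m x) q hq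
      · rintro ⟨h1, x0, h2⟩
        exact (hrect x0 x v h2 h1).1
    have hQf : Q.filter (fun p => tr p = κ) = X ×ˢ V := by
      rw [← hset]
      ext p
      simp only [Finset.mem_filter, Finset.mem_univ, true_and, hQ]
      constructor
      · rintro ⟨_, h⟩; exact h
      · intro h; exact ⟨by rw [h]; exact hlen, h⟩
    set s : Vec n → ℝ := fun v => if h : ∃ x, tr (x, v) = κ then
      sg (g ((P v).out (m h.choose))) else 0 with hs
    have hs1 : ∀ v, |s v| ≤ 1 := by
      intro v
      simp only [hs]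
      split_ifs
      · exact sg_abs_le _
      · simp
    have hfs : ∀ x ∈ X, ∀ v ∈ V, f (x, v) = s v * sg (x ⬝ᵥ v) := by
      intro x hx v hv
      simp only [hV, Finset.mem_filter, Finset.mem_univ, true_and] at hv
      simp only [hX, Finset.mem_filter, Finset.mem_univ, true_and] at hx
      have := (hrect hv.choose x v hv.choose_spec hx).2
      simp only [hf, hs, hv, dif_pos, this]
    rw [hQf, hset, Finset.sum_product]
    calc ∑ x ∈ X, ∑ v ∈ V, f (x, v) = ∑ x ∈ X, ∑ v ∈ V, s v * sg (x ⬝ᵥ v) :=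
          Finset.sum_congr rfl (fun x hx => Finset.sum_congr rfl (fun v hv => hfs x hx v hv))
      _ ≤ _ := lindsey X V s hs1
      _ = _ := by rw [Finset.card_product]; push_cast; ring_nf
  have hsumQ : ∑ p ∈ Q, f p = ∑ κ ∈ K, ∑ p ∈ Q.filter (fun p => tr p = κ), f p :=
    (Finset.sum_fiberwise_of_maps_to (fun p hp => Finset.mem_image_of_mem tr hp) f).symm
  have hN : (Fintype.card (Vec n × Vec n) : ℝ) = ((2 : ℝ) ^ n) ^ 2 := by
    simp [Fintype.card_prod, ZMod.card, sq]
  have hupper : ∑ p ∈ Q, f p ≤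
      Real.sqrt (((Fintype.card A * Fintype.card W + 1 : ℕ) : ℝ) ^ T * ((2 : ℝ) ^ n) ^ 3) := by
    rw [hsumQ]
    set c : List (A × W) → ℝ := fun κ =>
      (((univ.filter (fun p : Vec n × Vec n => tr p = κ)).card : ℝ) * 2 ^ n) with hc
    have hc0 : ∀ κ, 0 ≤ c κ := fun κ => by simp only [hc]; positivity
    calc ∑ κ ∈ K, ∑ p ∈ Q.filter (fun p => tr p = κ), f p
        ≤ ∑ κ ∈ K, Real.sqrt (c κ) := Finset.sum_le_sum hfib
      _ ≤ Real.sqrt ((K.card : ℝ) * ∑ κ ∈ K, c κ) := by
          apply Real.le_sqrt_of_sq_le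
          have := sq_sum_le_card_mul_sum_sq (s := K) (f := fun κ => Real.sqrt (c κ))
          simpa [Real.sq_sqrt (hc0 _)] using this
      _ ≤ _ := by
          apply Real.sqrt_le_sqrt
          have h1 : ∑ κ ∈ K, c κ ≤ ((2 : ℝ) ^ n) ^ 3 := by
            have h2 : ∑ κ ∈ K, ((univ.filter (fun p : Vec n × Vec n => tr p = κ)).card : ℝ) ≤
                ((2 : ℝ) ^ n) ^ 2 := by
              rw [← hN]
              have h3 : ∑ κ ∈ K, (univ.filter (fun p : Vec n × Vec n => tr p = κ)).card ≤
                  (univ : Finset (Vec n × Vec n)).card := by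
                rw [← Finset.card_biUnion]
                · exact Finset.card_le_card (Finset.subset_univ _)
                · intro κ _ κ' _ hne
                  rw [Function.onFun, Finset.disjoint_left]
                  intro p hp hp'
                  simp only [Finset.mem_filter, Finset.mem_univ, true_and] at hp hp'
                  exact hne (hp.symm.trans hp')
              exact_mod_cast h3
            simp only [hc]
            rw [← Finset.sum_mul]
            have : (0 : ℝ) < 2 ^ n := by positivity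
            nlinarith
          have h4 : (K.card : ℝ) ≤ ((Fintype.card A * Fintype.card W + 1 : ℕ) : ℝ) ^ T := by
            exact_mod_cast hKcard
          have h5 : 0 ≤ ∑ κ ∈ K, c κ := Finset.sum_nonneg (fun κ _ => hc0 κ)
          exact mul_le_mul h4 h1 h5 (by positivity)
  -- lower bound for the sum
  set Wr : Finset (Vec n × Vec n) :=
    univ.filter (fun p => g ((P p.2).out (m p.1)) ≠ p.1 ⬝ᵥ p.2) with hWr
  set L : Finset (Vec n × Vec n) :=
    univ.filter (fun p => T < ((P p.2).addrs (m p.1)).countP (fun a => decide (dep a))) with hL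
  have hfval : ∀ p, f p = 1 - 2 * (if p ∈ Wr then 1 else 0) := by
    intro p
    simp only [hf, sg_eq, hWr, Finset.mem_filter, Finset.mem_univ, true_and]
    by_cases h : g ((P p.2).out (m p.1)) = p.1 ⬝ᵥ p.2
    · simp [h]
    · simp [h]; norm_num
  have hlow : ((2 : ℝ) ^ n) ^ 2 - (L.card : ℝ) - 2 * (Wr.card : ℝ) ≤ ∑ p ∈ Q, f p := by
    have hQL : Q = univ \ L := by
      ext p
      simp only [hQ, hL, Finset.mem_filter, Finset.mem_univ, true_and, Finset.mem_sdiff, not_lt]
      rw [← Prog.length_trans]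
    have h1 : ∑ p ∈ Q, f p = (Q.card : ℝ) - 2 * ∑ p ∈ Q, (if p ∈ Wr then (1 : ℝ) else 0) := by
      simp only [hfval]
      rw [Finset.sum_sub_distrib, ← Finset.mul_sum]
      simp
    have h2 : ∑ p ∈ Q, (if p ∈ Wr then (1 : ℝ) else 0) ≤ (Wr.card : ℝ) := by
      rw [Finset.sum_ite_mem]
      simp only [Finset.sum_const, nsmul_eq_mul, mul_one]
      exact_mod_cast Finset.card_le_card Finset.inter_subset_right
    have h3 : (Q.card : ℝ) = ((2 : ℝ) ^ n) ^ 2 - (L.card : ℝ) := by
      rw [← hN, hQL, Finset.card_sdiff_of_subset (Finset.subset_univ L), Finset.card_univ,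
        Nat.cast_sub (Finset.card_le_univ L)]
    rw [h1, h3]
    linarith
  linarith

end Pool.Agent.H699R2.OMV
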