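import Mathlib

/-!
# Online matrix-vector multiplication over `ZMod 2` in the cell-probe model

Memory cells have addresses in a type `A` and contents in a type `W`. Only probing a cell costs
time. Between two queries the memory may be rewritten completely, free of charge and
with full knowledge of the matrix and of the earlier vectors, so every word-RAM algorithm
(with any preprocessing of the matrix) is an algorithm in this sense, with at most as many probes
as it makes steps.
-/

namespace Pool.Agent.H699R2.OMV

/-- Adaptive probing programs: either stop with an answer, or probe the cell with a given address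
and continue depending on its content. Everything except probing a cell is free. -/
inductive Prog (A W O : Type) : Type
  | done : O → Prog A W O
  | probe : A → (W → Prog A W O) → Prog A W O

namespace Prog
variable {A W O : Type}

/-- The answer of a program run on the memory content `m`. -/
def out : Prog A W O → (A → W) → O
  | done o, _ => o
  | probe a k, m => out (k (m a)) m

/-- The list of addresses probed by a program run on the memory content `m`, in order. -/
def addrs : Prog A W O → (A → W) → List A
  | done _, _ => []
  | probe a k, m => a :: addrs (k (m a)) m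

end Prog

/-- Vectors over `ZMod 2`. -/
abbrev Vec (n : ℕ) : Type := Fin n → ZMod 2

/-- `n × n` matrices over `ZMod 2`. -/
abbrev Mat (n : ℕ) : Type := Matrix (Fin n) (Fin n) (ZMod 2)

/-- A randomised algorithm for online matrix-vector multiplication in the cell-probe model.
`Ω` is the set of outcomes of its coins. `mem ω M h` is the content of the memory
when the vectors in the list `h` have been processed (an arbitrary function of the coins, the
matrix and the earlier vectors), and `prog ω h v` is the program run on the next vector `v`. -/
structure Alg (n : ℕ) (Ω A W : Type) where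
  mem : Ω → Mat n → List (Vec n) → A → W
  prog : Ω → List (Vec n) → Vec n → Prog A W (Vec n)

/-- The vectors that precede the `q`-th one. -/
def before {n : ℕ} (vs : Fin n → Vec n) (q : Fin n) : List (Vec n) := (List.ofFn vs).take q

/-- `μ` is a probability distribution on the finite set `Ω`. -/
structure IsProb {Ω : Type} [Fintype Ω] (μ : Ω → ℝ) : Prop where
  nonneg : ∀ ω, 0 ≤ μ ω
  sum_one : ∑ ω, μ ω = 1

/-- The average of `F` over all inputs: a matrix and a stream of `n` vectors. -/
noncomputable def avg {n : ℕ} (F : Mat n → (Fin n → Vec n) → ℝ) : ℝ :=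
  (∑ M, ∑ vs, F M vs) / ((Fintype.card (Mat n) : ℝ) * (Fintype.card (Fin n → Vec n) : ℝ))

/-- The matrix `M'` such that `G * M'` is `G * M` with row `r` replaced by `x`. -/
def replaceRow {n : ℕ} (G : (Mat n)ˣ) (r : Fin n) (M : Mat n) (x : Vec n) : Mat n :=
  (↑G⁻¹ : Mat n) * ((G : Mat n) * M).updateRow r x

/-- The matrix `M'` such that `M' * G` is `M * G` with column `i` replaced by `x`. -/
def replaceCol {n : ℕ} (G : (Mat n)ˣ) (i : Fin n) (M : Mat n) (x : Vec n) : Mat n :=
  (M * (G : Mat n)).updateCol i x * (↑G⁻¹ : Mat n)

/-- The vector `u'` such that `G *ᵥ u'` is `G *ᵥ u` with coordinate `i` flipped. -/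
def flipCoord {n : ℕ} (G : (Mat n)ˣ) (i : Fin n) (u : Vec n) : Vec n :=
  u + (↑G⁻¹ : Mat n).mulVec (Pi.single i 1)

namespace Alg
variable {n : ℕ} {Ω A W : Type}

/-- The answer to the `q`-th vector of the stream `vs`. -/
def answer (alg : Alg n Ω A W) (ω : Ω) (M : Mat n) (vs : Fin n → Vec n) (q : Fin n) : Vec n :=
  (alg.prog ω (before vs q) (vs q)).out (alg.mem ω M (before vs q))

/-- The addresses probed while the `q`-th vector of the stream `vs` is processed. -/
def probes (alg : Alg n Ω A W) (ω : Ω) (M : Mat n) (vs : Fin n → Vec n) (q : Fin n) : List A :=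
  (alg.prog ω (before vs q) (vs q)).addrs (alg.mem ω M (before vs q))

open Classical

/-- On every input, the probability that some answer is wrong is at most `1/3`. -/
def Solves [Fintype Ω] (alg : Alg n Ω A W) (μ : Ω → ℝ) : Prop :=
  ∀ (M : Mat n) (vs : Fin n → Vec n),
    ∑ ω ∈ Finset.univ.filter (fun ω => ∃ q, alg.answer ω M vs q ≠ M.mulVec (vs q)), μ ω ≤ 1 / 3

/-- On a uniformly random input, each single answer is wrong with probability at most `1/3`. -/
def SolvesOnAverage [Fintype Ω] (alg : Alg n Ω A W) (μ : Ω → ℝ) : Prop :=
  ∀ q : Fin n, avg (fun M vs =>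
    ∑ ω, μ ω * (if alg.answer ω M vs q ≠ M.mulVec (vs q) then (1 : ℝ) else 0)) ≤ 1 / 3

/-- The rows of `G * M` to which the content of the cell `a` is sensitive, when the vectors in `h`
have been processed: the indices `r` such that the content can be changed by replacing
row `r` of `G * M` alone. -/
noncomputable def rowSens (alg : Alg n Ω A W) (G : (Mat n)ˣ) (ω : Ω) (M : Mat n)
    (h : List (Vec n)) (a : A) : Finset (Fin n) :=
  Finset.univ.filter (fun r => ∃ x, alg.mem ω (replaceRow G r M x) h a ≠ alg.mem ω M h a)

/-- The columns of `M * G` to which the content of the cell `a` is sensitive, when the vectors in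
`h` have been processed. -/
noncomputable def colSens (alg : Alg n Ω A W) (G : (Mat n)ˣ) (ω : Ω) (M : Mat n)
    (h : List (Vec n)) (a : A) : Finset (Fin n) :=
  Finset.univ.filter (fun i => ∃ x, alg.mem ω (replaceCol G i M x) h a ≠ alg.mem ω M h a)

/-- The coordinates of `G *ᵥ u` to which the address of the `τ`-th probe (for the current vector
`u`) is sensitive: the indices `i` such that this address changes when coordinate `i` of
`G *ᵥ u` is flipped. -/
noncomputable def addrSens (alg : Alg n Ω A W) (G : (Mat n)ˣ) (ω : Ω) (M : Mat n)
    (h : List (Vec n)) (u : Vec n) (τ : ℕ) : Finset (Fin n) :=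
  Finset.univ.filter (fun i =>
    ((alg.prog ω h (flipCoord G i u)).addrs (alg.mem ω M h))[τ]? ≠
      ((alg.prog ω h u).addrs (alg.mem ω M h))[τ]?)

/-- Expected total, over all probes made on an input, of the number of rows of `G * M` to which the
content of the probed cell is sensitive. -/
noncomputable def rowWork [Fintype Ω] (alg : Alg n Ω A W) (μ : Ω → ℝ)
    (G : Ω → List (Vec n) → (Mat n)ˣ) (M : Mat n) (vs : Fin n → Vec n) : ℝ :=
  ∑ ω, μ ω * ∑ q, (((alg.probes ω M vs q).map
    (fun a => (alg.rowSens (G ω (before vs q)) ω M (before vs q) a).card)).sum : ℝ)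

/-- Expected total, over all probes made on an input, of the number of columns of `M * G` to which
the content of the probed cell is sensitive. -/
noncomputable def colWork [Fintype Ω] (alg : Alg n Ω A W) (μ : Ω → ℝ)
    (G : Ω → List (Vec n) → (Mat n)ˣ) (M : Mat n) (vs : Fin n → Vec n) : ℝ :=
  ∑ ω, μ ω * ∑ q, (((alg.probes ω M vs q).map
    (fun a => (alg.colSens (G ω (before vs q)) ω M (before vs q) a).card)).sum : ℝ)

/-- Expected total, over all probes made on an input, of one plus the number of coordinates of
`G *ᵥ v` (`v` the current vector) to which the address of the probe is sensitive. -/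
noncomputable def addrWork [Fintype Ω] (alg : Alg n Ω A W) (μ : Ω → ℝ)
    (G : Ω → List (Vec n) → (Mat n)ˣ) (M : Mat n) (vs : Fin n → Vec n) : ℝ :=
  ∑ ω, μ ω * ∑ q, ∑ τ ∈ Finset.range (alg.probes ω M vs q).length,
    (1 + ((alg.addrSens (G ω (before vs q)) ω M (before vs q) (vs q) τ).card : ℝ))

end Alg

end Pool.Agent.H699R2.OMV
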