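import Pool.Agent.H699R2.OMV.Lindsey

namespace Pool.Agent.H699R2.OMV

open Finset

variable {n : ℕ}

lemma before_update (vs : Fin n → Vec n) (q : Fin n) (v : Vec n) :
    before (Function.update vs q v) q = before vs q := by
  unfold before
  apply List.ext_getElem?
  intro j
  simp only [List.getElem?_take]
  by_cases hj : j < (q : ℕ)
  · simp only [hj, if_true]
    have hjn : j < n := lt_trans hj q.2
    rw [List.getElem?_ofFn, List.getElem?_ofFn]
    simp only [hjn, dif_pos]
    have : (⟨j, hjn⟩ : Fin n) ≠ q := by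
      intro h
      rw [← h] at hj
      simp at hj
    rw [Function.update_of_ne this]
  · simp [hj]

lemma mul_replaceRow (G : (Mat n)ˣ) (r : Fin n) (M : Mat n) (x : Vec n) :
    (G : Mat n) * replaceRow G r M x = ((G : Mat n) * M).updateRow r x := by
  unfold replaceRow
  rw [← mul_assoc, Units.mul_inv, one_mul]

lemma replaceRow_idem (G : (Mat n)ˣ) (r : Fin n) (M : Mat n) (x y : Vec n) :
    replaceRow G r (replaceRow G r M x) y = replaceRow G r M y := by
  unfold replaceRow
  rw [← mul_assoc (G : Mat n), Units.mul_inv, one_mul, Matrix.updateRow_idem]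

lemma sum_replaceRow (G : (Mat n)ˣ) (r : Fin n) (F : Mat n → ℝ) :
    ∑ M : Mat n, ∑ x : Vec n, F (replaceRow G r M x) = (2 : ℝ) ^ n * ∑ M, F M := by
  have := sum_upd (fun (M : Mat n) (x : Vec n) => replaceRow G r M x) (fun M => ((G : Mat n) * M) r)
    (fun a x => by simp only [mul_replaceRow]; simp)
    (fun a x y => by
      show replaceRow G r (replaceRow G r a x) y = replaceRow G r a y
      unfold replaceRow
      rw [← mul_assoc (G : Mat n), Units.mul_inv, one_mul, Matrix.updateRow_idem])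
    (fun a => by
      simp only [replaceRow]
      rw [Matrix.updateRow_eq_self, ← mul_assoc, Units.inv_mul, one_mul]) F
  rw [this]
  simp [ZMod.card]

lemma sum_updateSeq (q : Fin n) (F : (Fin n → Vec n) → ℝ) :
    ∑ vs : Fin n → Vec n, ∑ x : Vec n, F (Function.update vs q x) = (2 : ℝ) ^ n * ∑ vs, F vs := by
  have := sum_update_fun q F
  rw [this]
  simp [ZMod.card]

lemma sum_both (G : List (Vec n) → (Mat n)ˣ) (r q : Fin n) (F : Mat n → (Fin n → Vec n) → ℝ) :
    ∑ M : Mat n, ∑ vs : Fin n → Vec n, ∑ x : Vec n, ∑ v : Vec n,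
      F (replaceRow (G (before vs q)) r M x) (Function.update vs q v) =
    ((2 : ℝ) ^ n) ^ 2 * ∑ M, ∑ vs, F M vs := by
  rw [Finset.sum_comm]
  have h1 : ∀ vs : Fin n → Vec n, ∑ M : Mat n, ∑ x : Vec n, ∑ v : Vec n,
      F (replaceRow (G (before vs q)) r M x) (Function.update vs q v) =
      ∑ v : Vec n, (2 : ℝ) ^ n * ∑ M, F M (Function.update vs q v) := by
    intro vs
    have := sum_replaceRow (G (before vs q)) r
      (fun M => ∑ v : Vec n, F M (Function.update vs q v))
    rw [this, Finset.sum_comm, Finset.mul_sum]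
  simp only [h1]
  have := sum_updateSeq q (fun vs => (2 : ℝ) ^ n * ∑ M, F M vs)
  rw [this, ← Finset.mul_sum, Finset.sum_comm]
  ring

/-- the number of inputs, as a real number -/
noncomputable def NN (n : ℕ) : ℝ := (Fintype.card (Mat n) : ℝ) * (Fintype.card (Fin n → Vec n) : ℝ)

lemma NN_pos (n : ℕ) : 0 < NN n := by
  unfold NN
  have h1 : 0 < Fintype.card (Mat n) := Fintype.card_pos
  have h2 : 0 < Fintype.card (Fin n → Vec n) := Fintype.card_pos
  positivity

lemma avg_eq (F : Mat n → (Fin n → Vec n) → ℝ) : avg F = (∑ M, ∑ vs, F M vs) / NN n := rfl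

lemma sum_const_NN (c : ℝ) : ∑ _M : Mat n, ∑ _vs : Fin n → Vec n, c = NN n * c := by
  simp only [Finset.sum_const, nsmul_eq_mul, Finset.card_univ]
  unfold NN
  ring

section rows

variable {Ω A W : Type} [Fintype Ω] [Fintype A] [Fintype W]

open Classical in
/-- number of probes to cells whose dependency set contains `r` -/
noncomputable def tcount (alg : Alg n Ω A W) (J : Ω → Mat n → List (Vec n) → A → Finset (Fin n))
    (ω : Ω) (M : Mat n) (vs : Fin n → Vec n) (q r : Fin n) : ℕ :=
  (alg.probes ω M vs q).countP (fun a => decide (r ∈ J ω M (before vs q) a))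

/-- `J` contains the rows to which the cells are sensitive -/
def RowValid (alg : Alg n Ω A W) (G : Ω → List (Vec n) → (Mat n)ˣ)
    (J : Ω → Mat n → List (Vec n) → A → Finset (Fin n)) : Prop :=
  ∀ ω M h a r x, r ∉ J ω M h a → alg.mem ω (replaceRow (G ω h) r M x) h a = alg.mem ω M h a

open Classical in
lemma stepA (alg : Alg n Ω A W) (G : Ω → List (Vec n) → (Mat n)ˣ)
    (J : Ω → Mat n → List (Vec n) → A → Finset (Fin n))
    (hJ : RowValid alg G J) (ω : Ω) (q r : Fin n) (T : ℕ) :
    NN n ≤ (∑ M : Mat n, ∑ vs : Fin n → Vec n,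
      (2 * (if alg.answer ω M vs q ≠ M.mulVec (vs q) then (1 : ℝ) else 0) +
        (if T < tcount alg J ω M vs q r then (1 : ℝ) else 0))) +
      NN n * Real.sqrt (((Fintype.card A * Fintype.card W + 1 : ℕ) : ℝ) ^ T / (2 : ℝ) ^ n) := by
  set F : Mat n → (Fin n → Vec n) → ℝ := fun M vs =>
      (2 * (if alg.answer ω M vs q ≠ M.mulVec (vs q) then (1 : ℝ) else 0) +
        (if T < tcount alg J ω M vs q r then (1 : ℝ) else 0)) with hF
  set R : ℝ := Real.sqrt (((Fintype.card A * Fintype.card W + 1 : ℕ) : ℝ) ^ T * ((2 : ℝ) ^ n) ^ 3)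
    with hR
  have key : ∀ (M : Mat n) (vs : Fin n → Vec n), ((2 : ℝ) ^ n) ^ 2 ≤
      (∑ x : Vec n, ∑ v : Vec n,
        F (replaceRow (G ω (before vs q)) r M x) (Function.update vs q v)) + R := by
    intro M vs
    have hc := core (fun x => alg.mem ω (replaceRow (G ω (before vs q)) r M x) (before vs q))
      (fun v => alg.prog ω (before vs q) v)
      (fun o : Vec n => ((G ω (before vs q) : Mat n).mulVec o) r)
      (fun a => ∃ x x', alg.mem ω (replaceRow (G ω (before vs q)) r M x) (before vs q) a ≠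
        alg.mem ω (replaceRow (G ω (before vs q)) r M x') (before vs q) a) (by
        intro a ha x x'
        push Not at ha
        exact ha x x') T
    refine hc.trans ?_
    gcongr
    rw [← Fintype.sum_prod_type'
      (fun x v => F (replaceRow (G ω (before vs q)) r M x) (Function.update vs q v))]
    simp only [hF]
    rw [Finset.sum_add_distrib, ← Finset.mul_sum]
    rw [Finset.sum_ite, Finset.sum_ite]
    simp only [Finset.sum_const, nsmul_eq_mul, mul_one, Finset.sum_const_zero, add_zero]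
    gcongr ?_ * ?_ + ?_
    · norm_cast
      apply Finset.card_le_card
      intro p hp
      simp only [Finset.mem_filter, Finset.mem_univ, true_and] at hp ⊢
      intro h
      apply hp
      unfold Alg.answer at h
      rw [before_update] at h
      simp only [Function.update_self] at h
      rw [h, Matrix.mulVec_mulVec, mul_replaceRow]
      simp [Matrix.mulVec]
    · norm_cast
      apply Finset.card_le_card
      intro p hp
      simp only [Finset.mem_filter, Finset.mem_univ, true_and] at hp ⊢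
      refine lt_of_lt_of_le hp ?_
      unfold tcount Alg.probes
      rw [before_update]
      simp only [Function.update_self]
      apply List.countP_mono_left
      intro a _ ha
      simp only [decide_eq_true_eq] at ha ⊢
      by_contra hr
      obtain ⟨x, x', hxx⟩ := ha
      have hinv : ∀ y, alg.mem ω (replaceRow (G ω (before vs q)) r M y) (before vs q) a =
          alg.mem ω (replaceRow (G ω (before vs q)) r M p.1) (before vs q) a := by
        intro y
        have := hJ ω (replaceRow (G ω (before vs q)) r M p.1) (before vs q) a r y hr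
        rw [replaceRow_idem] at this
        exact this
      exact hxx ((hinv x).trans (hinv x').symm)
  have hsum : NN n * ((2 : ℝ) ^ n) ^ 2 ≤ ((2 : ℝ) ^ n) ^ 2 * (∑ M, ∑ vs, F M vs) + NN n * R := by
    rw [← sum_const_NN, ← sum_const_NN, ← sum_both (G ω) r q F, ← Finset.sum_add_distrib]
    apply Finset.sum_le_sum
    intro M _
    rw [← Finset.sum_add_distrib]
    apply Finset.sum_le_sum
    intro vs _
    exact key M vs
  have h2 : (0 : ℝ) < 2 ^ n := by positivity
  have hR' : R = ((2 : ℝ) ^ n) ^ 2 *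
      Real.sqrt (((Fintype.card A * Fintype.card W + 1 : ℕ) : ℝ) ^ T / (2 : ℝ) ^ n) := by
    rw [hR]
    have : ((Fintype.card A * Fintype.card W + 1 : ℕ) : ℝ) ^ T * ((2 : ℝ) ^ n) ^ 3 =
        (((2 : ℝ) ^ n) ^ 2) ^ 2 * (((Fintype.card A * Fintype.card W + 1 : ℕ) : ℝ) ^ T / (2 : ℝ) ^ n) := by
      field_simp
    rw [this, Real.sqrt_mul (by positivity), Real.sqrt_sq (by positivity)]
  rw [hR'] at hsum
  have h3 : (0 : ℝ) < ((2 : ℝ) ^ n) ^ 2 := by positivity
  have : ((2 : ℝ) ^ n) ^ 2 * NN n ≤ ((2 : ℝ) ^ n) ^ 2 * ((∑ M, ∑ vs, F M vs) +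
      NN n * Real.sqrt (((Fintype.card A * Fintype.card W + 1 : ℕ) : ℝ) ^ T / (2 : ℝ) ^ n)) := by
    linarith
  exact le_of_mul_le_mul_left this h3

open Classical in
omit [Fintype A] [Fintype W] in
lemma wrong_sum (alg : Alg n Ω A W) (μ : Ω → ℝ) (hs : alg.SolvesOnAverage μ) (q : Fin n) :
    ∑ M : Mat n, ∑ vs : Fin n → Vec n, ∑ ω, μ ω *
        (if alg.answer ω M vs q ≠ M.mulVec (vs q) then (1 : ℝ) else 0) ≤ NN n * (1 / 3) := by
  have := hs q
  rw [avg_eq, div_le_iff₀ (NN_pos n)] at this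
  linarith

open Classical in
omit [Fintype A] [Fintype W] in
lemma solvesOnAverage_of_solves (alg : Alg n Ω A W) (μ : Ω → ℝ) (hμ : IsProb μ)
    (hs : alg.Solves μ) : alg.SolvesOnAverage μ := by
  intro q
  rw [avg_eq, div_le_iff₀ (NN_pos n)]
  have h1 : ∀ (M : Mat n) (vs : Fin n → Vec n), ∑ ω, μ ω *
      (if alg.answer ω M vs q ≠ M.mulVec (vs q) then (1 : ℝ) else 0) ≤ 1 / 3 := by
    intro M vs
    refine le_trans ?_ (hs M vs)
    rw [Finset.sum_filter]
    apply Finset.sum_le_sum
    intro ω _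
    by_cases h : alg.answer ω M vs q ≠ M.mulVec (vs q)
    · have : ∃ q, alg.answer ω M vs q ≠ M.mulVec (vs q) := ⟨q, h⟩
      simp [h, this]
    · simp only [h, if_false, mul_zero]
      split_ifs
      · exact hμ.nonneg ω
      · exact le_refl _
  have h2 := Finset.sum_le_sum (fun M (_ : M ∈ (univ : Finset (Mat n))) =>
    Finset.sum_le_sum (fun vs (_ : vs ∈ (univ : Finset (Fin n → Vec n))) => h1 M vs))
  rw [sum_const_NN] at h2
  linarith

open Classical in
/-- weighted sums over all inputs -/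
lemma stepB (alg : Alg n Ω A W) (μ : Ω → ℝ) (hμ : IsProb μ) (hs : alg.SolvesOnAverage μ)
    (G : Ω → List (Vec n) → (Mat n)ˣ) (J : Ω → Mat n → List (Vec n) → A → Finset (Fin n))
    (hJ : RowValid alg G J) (q r : Fin n) (T : ℕ)
    (hT : ((Fintype.card A * Fintype.card W + 1 : ℕ) : ℝ) ^ T / (2 : ℝ) ^ n ≤ 1 / 36) :
    NN n * ((T + 1) / 6) ≤
      ∑ M : Mat n, ∑ vs : Fin n → Vec n, ∑ ω, μ ω * (tcount alg J ω M vs q r : ℝ) := by
  have hsq : Real.sqrt (((Fintype.card A * Fintype.card W + 1 : ℕ) : ℝ) ^ T / (2 : ℝ) ^ n) ≤ 1 / 6 := by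
    rw [show (1 / 6 : ℝ) = Real.sqrt (1 / 36) by
      rw [show (1 / 36 : ℝ) = (1 / 6) ^ 2 by norm_num, Real.sqrt_sq (by norm_num)]]
    exact Real.sqrt_le_sqrt hT
  have h1 : ∀ ω, μ ω * NN n ≤ μ ω * ((∑ M : Mat n, ∑ vs : Fin n → Vec n,
      (2 * (if alg.answer ω M vs q ≠ M.mulVec (vs q) then (1 : ℝ) else 0) +
        (if T < tcount alg J ω M vs q r then (1 : ℝ) else 0))) + NN n * (1 / 6)) := by
    intro ω
    apply mul_le_mul_of_nonneg_left _ (hμ.nonneg ω)
    refine (stepA alg G J hJ ω q r T).trans ?_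
    have := NN_pos n
    gcongr
  have h2 := Finset.sum_le_sum (fun ω (_ : ω ∈ (univ : Finset Ω)) => h1 ω)
  rw [← Finset.sum_mul, hμ.sum_one, one_mul] at h2
  simp only [mul_add] at h2
  rw [Finset.sum_add_distrib, ← Finset.sum_mul, hμ.sum_one, one_mul] at h2
  have h3 : ∑ ω, μ ω * (∑ M : Mat n, ∑ vs : Fin n → Vec n,
      (2 * (if alg.answer ω M vs q ≠ M.mulVec (vs q) then (1 : ℝ) else 0) +
        (if T < tcount alg J ω M vs q r then (1 : ℝ) else 0))) =
      2 * (∑ M : Mat n, ∑ vs : Fin n → Vec n, ∑ ω, μ ω *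
        (if alg.answer ω M vs q ≠ M.mulVec (vs q) then (1 : ℝ) else 0)) +
      ∑ M : Mat n, ∑ vs : Fin n → Vec n, ∑ ω, μ ω *
        (if T < tcount alg J ω M vs q r then (1 : ℝ) else 0) := by
    simp only [Finset.mul_sum]
    rw [Finset.sum_comm, ← Finset.sum_add_distrib]
    apply Finset.sum_congr rfl
    intro M _
    rw [Finset.sum_comm, ← Finset.sum_add_distrib]
    apply Finset.sum_congr rfl
    intro vs _
    rw [← Finset.sum_add_distrib]
    apply Finset.sum_congr rfl
    intro ω _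
    ring
  rw [h3] at h2
  have h4 : ∑ M : Mat n, ∑ vs : Fin n → Vec n, ∑ ω, μ ω *
        (if alg.answer ω M vs q ≠ M.mulVec (vs q) then (1 : ℝ) else 0) ≤ NN n * (1 / 3) :=
    wrong_sum alg μ hs q
  have h5 : NN n * (1 / 6) ≤ ∑ M : Mat n, ∑ vs : Fin n → Vec n, ∑ ω, μ ω *
        (if T < tcount alg J ω M vs q r then (1 : ℝ) else 0) := by linarith
  calc NN n * ((T + 1) / 6) = (T + 1) * (NN n * (1 / 6)) := by ring
    _ ≤ (T + 1) * ∑ M : Mat n, ∑ vs : Fin n → Vec n, ∑ ω, μ ω *
        (if T < tcount alg J ω M vs q r then (1 : ℝ) else 0) := by gcongr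
    _ ≤ _ := by
        rw [Finset.mul_sum]
        apply Finset.sum_le_sum
        intro M _
        rw [Finset.mul_sum]
        apply Finset.sum_le_sum
        intro vs _
        rw [Finset.mul_sum]
        apply Finset.sum_le_sum
        intro ω _
        rw [mul_left_comm]
        apply mul_le_mul_of_nonneg_left _ (hμ.nonneg ω)
        split_ifs with h
        · rw [mul_one]
          exact_mod_cast h
        · simp

lemma countP_sum {B : Type} (l : List B) (J : B → Finset (Fin n))
    [∀ (r : Fin n) (a : B), Decidable (r ∈ J a)] :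
    ∑ r : Fin n, l.countP (fun a => decide (r ∈ J a)) = (l.map (fun a => (J a).card)).sum := by
  induction l with
  | nil => simp
  | cons a l ih =>
    simp only [List.countP_cons, Finset.sum_add_distrib, List.map_cons, List.sum_cons]
    have : ∑ r : Fin n, (if decide (r ∈ J a) = true then 1 else 0) = (J a).card := by
      simp only [decide_eq_true_eq]
      rw [← Finset.card_filter]
      congr 1
      ext r
      simp
    omega

/-- choice of the number of probes -/
lemma exists_T (x : ℝ) (B c : ℕ) (hx : (c : ℝ) ≤ x) (hB : 2 ≤ B) :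
    ∃ T : ℕ, (B : ℝ) ^ T * 2 ^ c ≤ (2 : ℝ) ^ x ∧ x - c ≤ Real.logb 2 B * (T + 1) := by
  have hL : 0 < Real.logb 2 B := Real.logb_pos (by norm_num) (by exact_mod_cast hB)
  refine ⟨⌊(x - c) / Real.logb 2 B⌋₊, ?_, ?_⟩
  · have h1 : (⌊(x - c) / Real.logb 2 B⌋₊ : ℝ) ≤ (x - c) / Real.logb 2 B :=
      Nat.floor_le (div_nonneg (by linarith) hL.le)
    have h2 : (⌊(x - c) / Real.logb 2 B⌋₊ : ℝ) * Real.logb 2 B ≤ x - c := by
      rw [← le_div_iff₀ hL]; exact h1
    have hBpos : (0 : ℝ) < B := by positivity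
    calc (B : ℝ) ^ ⌊(x - c) / Real.logb 2 B⌋₊ * 2 ^ c
        = (2 : ℝ) ^ ((⌊(x - c) / Real.logb 2 B⌋₊ : ℝ) * Real.logb 2 B) * (2 : ℝ) ^ (c : ℝ) := by
          rw [mul_comm (⌊(x - c) / Real.logb 2 B⌋₊ : ℝ), Real.rpow_mul (by norm_num),
            Real.rpow_logb (by norm_num) (by norm_num) hBpos, Real.rpow_natCast, Real.rpow_natCast]
      _ = (2 : ℝ) ^ ((⌊(x - c) / Real.logb 2 B⌋₊ : ℝ) * Real.logb 2 B + c) := by
          rw [Real.rpow_add (by norm_num)]
      _ ≤ (2 : ℝ) ^ x := by
          apply Real.rpow_le_rpow_of_exponent_le (by norm_num)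
          linarith
  · have h1 := (Nat.lt_floor_add_one ((x - c) / Real.logb 2 B)).le
    rw [div_le_iff₀ hL] at h1
    linarith

/-- The expected total size of the sets `J ω M h a` over all probed cells `a`. -/
noncomputable def expDeps (alg : Alg n Ω A W) (μ : Ω → ℝ)
    (J : Ω → Mat n → List (Vec n) → A → Finset (Fin n)) (M : Mat n) (vs : Fin n → Vec n) : ℝ :=
  ∑ ω, μ ω * ∑ q, (((alg.probes ω M vs q).map (fun a => (J ω M (before vs q) a).card)).sum : ℝ)

omit [Fintype A] [Fintype W] in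
lemma sum_tcount (alg : Alg n Ω A W) (μ : Ω → ℝ)
    (J : Ω → Mat n → List (Vec n) → A → Finset (Fin n)) :
    ∑ q : Fin n, ∑ r : Fin n, ∑ M : Mat n, ∑ vs : Fin n → Vec n, ∑ ω,
      μ ω * (tcount alg J ω M vs q r : ℝ) =
    ∑ M : Mat n, ∑ vs : Fin n → Vec n, expDeps alg μ J M vs := by
  calc ∑ q : Fin n, ∑ r : Fin n, ∑ M : Mat n, ∑ vs : Fin n → Vec n, ∑ ω,
            μ ω * (tcount alg J ω M vs q r : ℝ)
      = ∑ M : Mat n, ∑ vs : Fin n → Vec n, ∑ ω, μ ω * ∑ q : Fin n, ∑ r : Fin n,
            (tcount alg J ω M vs q r : ℝ) := by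
          simp only [Finset.mul_sum]
          simp_rw [← Fintype.sum_prod_type']
          refine Finset.sum_bij' (fun p _ => (p.2.2.1, p.2.2.2.1, p.2.2.2.2, p.1, p.2.1))
            (fun p _ => (p.2.2.2.1, p.2.2.2.2, p.1, p.2.1, p.2.2.1))
            ?_ ?_ ?_ ?_ ?_ <;> simp
      _ = _ := by
          apply Finset.sum_congr rfl
          intro M _
          apply Finset.sum_congr rfl
          intro vs _
          unfold expDeps
          apply Finset.sum_congr rfl
          intro ω _
          congr 1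
          apply Finset.sum_congr rfl
          intro q _
          classical
          have := countP_sum (alg.probes ω M vs q) (fun a => J ω M (before vs q) a)
          unfold tcount
          rw [← Nat.cast_sum, this]

theorem row_bound (alg : Alg n Ω A W) (μ : Ω → ℝ) (hμ : IsProb μ) (hs : alg.SolvesOnAverage μ)
    (G : Ω → List (Vec n) → (Mat n)ˣ) (J : Ω → Mat n → List (Vec n) → A → Finset (Fin n))
    (hJ : RowValid alg G J) :
    (n : ℝ) ^ 2 * (n - 6) / (6 * Real.logb 2 (Fintype.card A * Fintype.card W + 2)) ≤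
      avg (expDeps alg μ J) := by
  have hlog1 : 1 ≤ Real.logb 2 ((Fintype.card A : ℝ) * Fintype.card W + 2) := by
    rw [Real.le_logb_iff_rpow_le (by norm_num) (by positivity)]
    norm_num
    positivity
  have hcost0 : ∀ M vs, 0 ≤ expDeps alg μ J M vs := by
    intro M vs
    exact Finset.sum_nonneg (fun ω _ => mul_nonneg (hμ.nonneg ω) (by positivity))
  have hav : avg (expDeps alg μ J) = (∑ M, ∑ vs, expDeps alg μ J M vs) / NN n := rfl
  rw [hav, div_le_div_iff₀ (by positivity) (NN_pos n)]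
  by_cases hn : (n : ℝ) ≤ 6
  · have h1 : (n : ℝ) ^ 2 * (n - 6) ≤ 0 :=
      mul_nonpos_of_nonneg_of_nonpos (by positivity) (by linarith)
    have h2 : 0 ≤ ∑ M, ∑ vs, expDeps alg μ J M vs :=
      Finset.sum_nonneg (fun M _ => Finset.sum_nonneg (fun vs _ => hcost0 M vs))
    have h3 := NN_pos n
    have h4 : (n : ℝ) ^ 2 * (n - 6) * NN n ≤ 0 := mul_nonpos_of_nonpos_of_nonneg h1 h3.le
    refine h4.trans ?_
    positivity
  push Not at hn
  obtain ⟨T, hT1, hT2⟩ := exists_T (n : ℝ) (Fintype.card A * Fintype.card W + 2) 6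
    (by exact_mod_cast hn.le) (by omega)
  have hT3 : ((Fintype.card A * Fintype.card W + 1 : ℕ) : ℝ) ^ T / (2 : ℝ) ^ n ≤ 1 / 36 := by
    rw [div_le_iff₀ (by positivity)]
    have h1 : ((Fintype.card A * Fintype.card W + 1 : ℕ) : ℝ) ^ T ≤
        ((Fintype.card A * Fintype.card W + 2 : ℕ) : ℝ) ^ T := by
      gcongr
      norm_num
    rw [Real.rpow_natCast] at hT1
    have : (2 : ℝ) ^ 6 = 64 := by norm_num
    rw [this] at hT1
    have h2 : (0 : ℝ) ≤ ((Fintype.card A * Fintype.card W + 2 : ℕ) : ℝ) ^ T := by positivity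
    nlinarith
  have hB : ∀ q r : Fin n, NN n * ((T + 1) / 6) ≤
      ∑ M : Mat n, ∑ vs : Fin n → Vec n, ∑ ω, μ ω * (tcount alg J ω M vs q r : ℝ) :=
    fun q r => stepB alg μ hμ hs G J hJ q r T hT3
  have hsum : ∑ q : Fin n, ∑ r : Fin n, NN n * ((T + 1) / 6) ≤
      ∑ M : Mat n, ∑ vs : Fin n → Vec n, expDeps alg μ J M vs := by
    rw [← sum_tcount]
    exact Finset.sum_le_sum (fun q _ => Finset.sum_le_sum (fun r _ => hB q r))
  have hconst : ∑ q : Fin n, ∑ r : Fin n, NN n * (((T : ℝ) + 1) / 6) =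
      NN n * ((n : ℝ) ^ 2 * ((T + 1) / 6)) := by
    simp only [Finset.sum_const, Finset.card_univ, Fintype.card_fin, nsmul_eq_mul]
    ring
  rw [hconst] at hsum
  have hL2 : (n : ℝ) - 6 ≤ Real.logb 2 ((Fintype.card A : ℝ) * Fintype.card W + 2) * (T + 1) := by
    have := hT2
    push_cast at this
    linarith
  have hNN := NN_pos n
  calc (n : ℝ) ^ 2 * (n - 6) * NN n ≤ (n : ℝ) ^ 2 *
        (Real.logb 2 ((Fintype.card A : ℝ) * Fintype.card W + 2) * (T + 1)) * NN n := by gcongr
    _ = 6 * Real.logb 2 ((Fintype.card A : ℝ) * Fintype.card W + 2) *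
        (NN n * ((n : ℝ) ^ 2 * ((T + 1) / 6))) := by ring
    _ ≤ 6 * Real.logb 2 ((Fintype.card A : ℝ) * Fintype.card W + 2) *
        (∑ M, ∑ vs, expDeps alg μ J M vs) := by gcongr
    _ = _ := by ring

end rows

end Pool.Agent.H699R2.OMV
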