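import Pool.Agent.H699R2.OMV.TMModel
import Pool.Agent.H699R2.OMV.AddrAvg

namespace Pool.Agent.H699R2.OMV

open Finset

variable {n : ℕ}

lemma TProg.window {K : ℕ} {Γ O : Type} (P : TProg K Γ O) : ∀ (t : ℕ) (T T' : Tapes K Γ),
    (∀ i (z : ℤ), |z| ≤ t → T i z = T' i z) → P.steps T ≤ t →
    P.steps T' = P.steps T ∧ P.out T' = P.out T := by
  induction P with
  | halt o => intro t T T' _ _; exact ⟨rfl, rfl⟩
  | step w mv k ih =>
    intro t T T' h hs
    have hh : T'.heads = T.heads := by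
      funext i
      exact (h i 0 (by simp)).symm
    simp only [TProg.steps] at hs ⊢
    simp only [TProg.out]
    rw [hh]
    have hnext : ∀ i (z : ℤ), |z| ≤ ((t - 1 : ℕ) : ℤ) →
        T.next (w T.heads) (mv T.heads) i z = T'.next (w T.heads) (mv T.heads) i z := by
      intro i z hz
      simp only [Tapes.next]
      by_cases h0 : z + (mv T.heads i).off = 0
      · rw [h0]; simp
      · rw [Function.update_of_ne h0, Function.update_of_ne h0]
        apply h
        have h1 : |(mv T.heads i).off| ≤ 1 := by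
          cases (mv T.heads i) <;> simp [Move.off]
        have h2 : ((t - 1 : ℕ) : ℤ) + 1 ≤ t := by omega
        have h3 := abs_add_le z (mv T.heads i).off
        omega
    have := ih T.heads (t - 1) _ _ hnext (by omega)
    exact ⟨by rw [this.1], this.2⟩

section tm

variable {K : ℕ} {Ω Γ Q : Type} [Fintype Ω] [Fintype Γ] [Fintype Q]

/-- flip a coordinate of the `q`-th vector -/
abbrev sh (q i : Fin n) (vs : Fin n → Vec n) : Fin n → Vec n :=
  shift (fun _ => 1) q i vs

lemma flip_one (i : Fin n) (u : Vec n) : flipCoord 1 i u = u + Pi.single i 1 := by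
  unfold flipCoord
  rw [inv_one, Units.val_one, Matrix.one_mulVec]

/-- counting lemma for tapes -/
lemma count_good_tm (conf : Mat n → Q × Tapes K Γ) (P : Vec n → Q → TProg K Γ (Vec n)) (v : Vec n)
    (t g : ℕ) [DecidableEq (Vec n)] :
    ((univ : Finset (Mat n)).filter (fun M =>
      g ≤ ((univ : Finset (Fin n)).filter (fun i =>
        ((P v (conf M).1).steps (conf M).2 ≤ t ∧ (P v (conf M).1).out (conf M).2 = M.mulVec v) ∧
        ((P (flipCoord 1 i v) (conf M).1).steps (conf M).2 ≤ t ∧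
        (P (flipCoord 1 i v) (conf M).1).out (conf M).2 = M.mulVec (flipCoord 1 i v)))).card)).card ≤
      (Fintype.card Q * (Fintype.card Γ ^ K) ^ (2 * t + 1)) * (2 ^ n * (2 ^ n) ^ (n - g)) := by
  classical
  set good : Mat n → Finset (Fin n) := fun M => (univ : Finset (Fin n)).filter (fun i =>
        ((P v (conf M).1).steps (conf M).2 ≤ t ∧ (P v (conf M).1).out (conf M).2 = M.mulVec v) ∧
        ((P (flipCoord 1 i v) (conf M).1).steps (conf M).2 ≤ t ∧
        (P (flipCoord 1 i v) (conf M).1).out (conf M).2 = M.mulVec (flipCoord 1 i v))) with hgood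
  set S : Finset (Mat n) := (univ : Finset (Mat n)).filter (fun M => g ≤ (good M).card) with hS
  set win : Mat n → Q × (Fin (2 * t + 1) → Fin K → Γ) := fun M =>
    ((conf M).1, fun j i => (conf M).2 i ((j : ℤ) - t)) with hwin
  set nf : Mat n → (Fin n → Vec n) := fun M i => if i ∈ good M then 0 else M.mulVec (Pi.single i 1)
    with hnf
  have hagree : ∀ M M', win M = win M' → (conf M).1 = (conf M').1 ∧
      ∀ i (z : ℤ), |z| ≤ t → (conf M).2 i z = (conf M').2 i z := by
    intro M M' h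
    simp only [hwin, Prod.mk.injEq] at h
    refine ⟨h.1, ?_⟩
    intro i z hz
    rw [abs_le] at hz
    have h2 := congrFun (congrFun h.2 ⟨(z + t).toNat, by omega⟩) i
    have h3 : (((z + t).toNat : ℕ) : ℤ) - t = z := by
      rw [Int.toNat_of_nonneg (by omega)]; ring
    simp only [h3] at h2
    exact h2
  have hinj : Set.InjOn (fun M => (win M, (good M, nf M))) S := by
    intro M hM M' hM' h
    simp only [Prod.mk.injEq] at h
    obtain ⟨h1, h2, h3⟩ := h
    obtain ⟨hq, ht⟩ := hagree M M' h1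
    have hcol : ∀ i : Fin n, M.mulVec (Pi.single i 1) = M'.mulVec (Pi.single i 1) := by
      intro i
      by_cases hi : i ∈ good M
      · have hi' : i ∈ good M' := by rw [← h2]; exact hi
        simp only [hgood, Finset.mem_filter, Finset.mem_univ, true_and] at hi hi'
        obtain ⟨⟨a1, a2⟩, a3, a4⟩ := hi
        obtain ⟨⟨b1, b2⟩, b3, b4⟩ := hi'
        have e1 := ((P v (conf M).1).window t _ _ ht a1).2
        have e2 := ((P (flipCoord 1 i v) (conf M).1).window t _ _ ht a3).2
        rw [hq] at e1 e2 a2 a4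
        have e3 : M.mulVec (flipCoord 1 i v) = M'.mulVec (flipCoord 1 i v) := by
          rw [← a4, ← b4, e2]
        have e4 : M.mulVec v = M'.mulVec v := by
          rw [← a2, ← b2, e1]
        rw [flip_one, Matrix.mulVec_add, Matrix.mulVec_add, e4] at e3
        exact add_left_cancel e3
      · have hi' : i ∉ good M' := by rw [← h2]; exact hi
        have := congrFun h3 i
        simp only [hnf, hi, hi', if_false] at this
        exact this
    ext r i
    have := congrFun (hcol i) r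
    simpa using this
  have hmaps : Set.MapsTo (fun M => (win M, (good M, nf M))) S
      ((univ : Finset (Q × (Fin (2 * t + 1) → Fin K → Γ))) ×ˢ
        ((univ : Finset (Finset (Fin n) × (Fin n → Vec n))).filter
      (fun p => g ≤ p.1.card ∧ ∀ i ∈ p.1, p.2 i = 0)) : Finset _) := by
    intro M hM
    have hM' := hM
    simp only [hS, Finset.coe_filter, Finset.mem_univ, true_and, Set.mem_setOf_eq] at hM'
    simp only [Finset.coe_product, Set.mem_prod, Finset.mem_coe, Finset.mem_filter,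
      Finset.mem_univ, true_and]
    refine ⟨hM', ?_⟩
    intro i hi
    simp only [hnf, hi, if_true]
  have := Finset.card_le_card_of_injOn _ hmaps hinj
  rw [Finset.card_product] at this
  refine this.trans (Nat.mul_le_mul ?_ (card_pairs_le g))
  simp

open Classical in
lemma tmStep (alg : TMAlg n K Ω Γ Q) (ω : Ω) (q : Fin n) (t g : ℕ) (hn : 0 < n) :
    NN n * ((n : ℝ) - g) ≤
      2 * n * (∑ M : Mat n, ∑ vs : Fin n → Vec n,
        (if alg.answer ω M vs q ≠ M.mulVec (vs q) then (1 : ℝ) else 0)) +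
      2 * n * (∑ M : Mat n, ∑ vs : Fin n → Vec n,
        (if t < alg.time ω M vs q then (1 : ℝ) else 0)) +
      n * ((Fintype.card (Fin n → Vec n) : ℝ) *
        (((Fintype.card Q * (Fintype.card Γ ^ K) ^ (2 * t + 1) : ℕ) : ℝ) *
          ((2 : ℝ) ^ n * ((2 : ℝ) ^ n) ^ (n - g)))) := by
  set wr : Mat n → (Fin n → Vec n) → ℝ := fun M vs =>
    (if alg.answer ω M vs q ≠ M.mulVec (vs q) then (1 : ℝ) else 0) with hwr
  set lg : Mat n → (Fin n → Vec n) → ℝ := fun M vs =>
    (if t < alg.time ω M vs q then (1 : ℝ) else 0) with hlg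
  set ok : Mat n → (Fin n → Vec n) → Prop := fun M vs =>
    alg.time ω M vs q ≤ t ∧ alg.answer ω M vs q = M.mulVec (vs q) with hok
  set good : Mat n → (Fin n → Vec n) → Finset (Fin n) := fun M vs => univ.filter (fun i =>
    ok M vs ∧ ok M (sh q i vs)) with hgood
  set sm : Mat n → (Fin n → Vec n) → ℝ := fun M vs =>
    (if g ≤ (good M vs).card then (1 : ℝ) else 0) with hsm
  set bd : Mat n → (Fin n → Vec n) → ℝ := fun M vs => wr M vs + lg M vs with hbd
  have hwr0 : ∀ M vs, 0 ≤ wr M vs := by intro M vs; simp only [hwr]; positivity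
  have hlg0 : ∀ M vs, 0 ≤ lg M vs := by intro M vs; simp only [hlg]; positivity
  have hsm0 : ∀ M vs, 0 ≤ sm M vs := by intro M vs; simp only [hsm]; positivity
  have hbd0 : ∀ M vs, 0 ≤ bd M vs := fun M vs => add_nonneg (hwr0 M vs) (hlg0 M vs)
  have hbd1 : ∀ M vs, ¬ ok M vs → 1 ≤ bd M vs := by
    intro M vs h
    simp only [hok, not_and_or, not_le] at h
    rcases h with h | h
    · have : lg M vs = 1 := by simp [hlg, h]
      simp only [hbd, this]
      linarith [hwr0 M vs]
    · have : wr M vs = 1 := by simp [hwr, h]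
      simp only [hbd, this]
      linarith [hlg0 M vs]
  have hn' : (0 : ℝ) < n := by exact_mod_cast hn
  have h1 : ∀ M vs, (n : ℝ) ≤ (good M vs).card + n * bd M vs + ∑ i : Fin n, bd M (sh q i vs) := by
    intro M vs
    have h0 : 0 ≤ ∑ i : Fin n, bd M (sh q i vs) := Finset.sum_nonneg (fun i _ => hbd0 _ _)
    by_cases hw : ok M vs
    · have h2 : (n : ℝ) - ∑ i : Fin n, bd M (sh q i vs) ≤ ((good M vs).card : ℝ) := by
        have e1 : ((good M vs).card : ℝ) = ∑ i : Fin n, (if i ∈ good M vs then (1 : ℝ) else 0) := by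
          simp
        have e2 : (n : ℝ) - ∑ i : Fin n, bd M (sh q i vs) = ∑ i : Fin n, (1 - bd M (sh q i vs)) := by
          rw [Finset.sum_sub_distrib]; simp
        rw [e1, e2]
        apply Finset.sum_le_sum
        intro i _
        by_cases h3 : ok M (sh q i vs)
        · have : i ∈ good M vs := by
            simp only [hgood, Finset.mem_filter, Finset.mem_univ, true_and]
            exact ⟨hw, h3⟩
          simp only [this, if_true]
          linarith [hbd0 M (sh q i vs)]
        · have h4 := hbd1 _ _ h3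
          split_ifs <;> linarith
      have := hbd0 M vs
      nlinarith
    · have h2 := hbd1 _ _ hw
      have h4 : (0 : ℝ) ≤ (good M vs).card := by positivity
      nlinarith
  have h2 : ∀ M vs, (n : ℝ) - g ≤ n * bd M vs + ∑ i : Fin n, bd M (sh q i vs) + n * sm M vs := by
    intro M vs
    have h3 := h1 M vs
    have h4 : 0 ≤ ∑ i : Fin n, bd M (sh q i vs) := Finset.sum_nonneg (fun i _ => hbd0 _ _)
    have h5 := hbd0 M vs
    by_cases hg : g ≤ (good M vs).card
    · have : sm M vs = 1 := by simp [hsm, hg]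
      rw [this]
      have h7 : (0 : ℝ) ≤ g := by positivity
      nlinarith
    · push Not at hg
      have h4 : ((good M vs).card : ℝ) ≤ g := by exact_mod_cast hg.le
      have h7 := hsm0 M vs
      nlinarith
  have h3 : ∀ vs : Fin n → Vec n, ∑ M : Mat n, sm M vs ≤
      ((Fintype.card Q * (Fintype.card Γ ^ K) ^ (2 * t + 1) : ℕ) : ℝ) *
        ((2 : ℝ) ^ n * ((2 : ℝ) ^ n) ^ (n - g)) := by
    intro vs
    have hc := count_good_tm (fun M => alg.conf ω M (before vs q))
      (fun v s => alg.prog ω (before vs q) v s) (vs q) t g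
    have h4 : ∑ M : Mat n, sm M vs = (((univ : Finset (Mat n)).filter (fun M =>
        g ≤ (good M vs).card)).card : ℝ) := by
      simp only [hsm]
      rw [Finset.sum_ite]
      simp
    rw [h4]
    have h5 : ((univ : Finset (Mat n)).filter (fun M => g ≤ (good M vs).card)).card ≤
        (Fintype.card Q * (Fintype.card Γ ^ K) ^ (2 * t + 1)) * (2 ^ n * (2 ^ n) ^ (n - g)) := by
      refine le_trans (Finset.card_le_card ?_) hc
      intro M hM
      simp only [Finset.mem_filter, Finset.mem_univ, true_and] at hM ⊢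
      simp only [hgood, hok, TMAlg.answer, TMAlg.time, before_shift, shift_apply] at hM
      exact hM
    exact_mod_cast h5
  have h4 := Finset.sum_le_sum (fun (M : Mat n) (_ : M ∈ univ) =>
    Finset.sum_le_sum (fun (vs : Fin n → Vec n) (_ : vs ∈ univ) => h2 M vs))
  rw [sum_const_NN] at h4
  simp only [Finset.sum_add_distrib, ← Finset.mul_sum] at h4
  have h5 : ∀ M : Mat n, ∑ vs : Fin n → Vec n, ∑ i : Fin n, bd M (sh q i vs) =
      n * ∑ vs : Fin n → Vec n, bd M vs := by
    intro M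
    rw [Finset.sum_comm]
    simp only [sum_shift (fun _ => 1) q _ (fun vs => bd M vs)]
    simp
  simp only [h5, ← Finset.mul_sum] at h4
  have h6 : ∑ M : Mat n, ∑ vs : Fin n → Vec n, sm M vs ≤ (Fintype.card (Fin n → Vec n) : ℝ) *
        (((Fintype.card Q * (Fintype.card Γ ^ K) ^ (2 * t + 1) : ℕ) : ℝ) *
          ((2 : ℝ) ^ n * ((2 : ℝ) ^ n) ^ (n - g))) := by
    rw [Finset.sum_comm]
    refine (Finset.sum_le_sum (fun vs _ => h3 vs)).trans ?_
    simp
  have h7 := mul_le_mul_of_nonneg_left h6 hn'.le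
  have h8 : ∑ M : Mat n, ∑ vs : Fin n → Vec n, bd M vs =
      (∑ M : Mat n, ∑ vs : Fin n → Vec n, wr M vs) +
      ∑ M : Mat n, ∑ vs : Fin n → Vec n, lg M vs := by
    simp only [hbd, Finset.sum_add_distrib]
  rw [h8] at h4
  linarith

open Classical in
omit [Fintype Γ] [Fintype Q] in
lemma tm_solvesOnAverage_of_solves (alg : TMAlg n K Ω Γ Q) (μ : Ω → ℝ) (hμ : IsProb μ)
    (hs : alg.Solves μ) : alg.SolvesOnAverage μ := by
  intro q
  rw [avg_eq, div_le_iff₀ (NN_pos n)]
  have h1 : ∀ (M : Mat n) (vs : Fin n → Vec n), ∑ ω, μ ω *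
      (if alg.answer ω M vs q ≠ M.mulVec (vs q) then (1 : ℝ) else 0) ≤ 1 / 3 := by
    intro M vs
    refine le_trans ?_ (hs M vs)
    rw [Finset.sum_filter]
    apply Finset.sum_le_sum
    intro ω _
    by_cases h : alg.answer ω M vs q ≠ M.mulVec (vs q)
    · have : ∃ q, alg.answer ω M vs q ≠ M.mulVec (vs q) := ⟨q, h⟩
      simp [h, this]
    · simp only [h, if_false, mul_zero]
      split_ifs
      · exact hμ.nonneg ω
      · exact le_refl _
  have h2 := Finset.sum_le_sum (fun M (_ : M ∈ (univ : Finset (Mat n))) =>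
    Finset.sum_le_sum (fun vs (_ : vs ∈ (univ : Finset (Fin n → Vec n))) => h1 M vs))
  rw [sum_const_NN] at h2
  linarith

theorem tm_bound (alg : TMAlg n K Ω Γ Q) (μ : Ω → ℝ) (hμ : IsProb μ) (hs : alg.SolvesOnAverage μ)
    (hK : 1 ≤ K) (hn : 24 ≤ n)
    (hbig : 24 * (Real.logb 2 (Fintype.card Q) + K * Real.logb 2 (Fintype.card Γ + 1)) ≤
      (n : ℝ) ^ 2) :
    (n : ℝ) ^ 3 / (1000 * (K * Real.logb 2 (Fintype.card Γ + 1))) ≤ avg (alg.expTime μ) := by
  classical
  have hnR : (24 : ℝ) ≤ n := by exact_mod_cast hn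
  have hNN := NN_pos n
  have hΩ : Nonempty Ω := by
    by_contra h
    rw [not_nonempty_iff] at h
    have := hμ.sum_one
    simp at this
  obtain ⟨ω0⟩ := hΩ
  have : Nonempty Q := ⟨(alg.conf ω0 0 []).1⟩
  have : Nonempty Γ := ⟨(alg.conf ω0 0 []).2 ⟨0, hK⟩ 0⟩
  have hQpos : 0 < Fintype.card Q := Fintype.card_pos
  have hΓpos : 0 < Fintype.card Γ := Fintype.card_pos
  have hΓlog : 1 ≤ Real.logb 2 ((Fintype.card Γ : ℝ) + 1) := by
    rw [Real.le_logb_iff_rpow_le (by norm_num) (by positivity)]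
    have : (1 : ℝ) ≤ Fintype.card Γ := by exact_mod_cast hΓpos
    norm_num
    linarith
  have hQlog : 0 ≤ Real.logb 2 (Fintype.card Q : ℝ) :=
    Real.logb_nonneg (by norm_num) (by exact_mod_cast hQpos)
  set L : ℝ := K * Real.logb 2 ((Fintype.card Γ : ℝ) + 1) with hL
  have hKR : (1 : ℝ) ≤ K := by exact_mod_cast hK
  have hL1 : 1 ≤ L := by nlinarith
  set lq : ℝ := Real.logb 2 (Fintype.card Q : ℝ) with hlq
  rw [avg_eq, div_le_div_iff₀ (by positivity) hNN]
  set g : ℕ := n / 6 with hg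
  have hg1 : (g : ℝ) ≤ n / 6 := by
    have : g * 6 ≤ n := Nat.div_mul_le_self n 6
    have : (g : ℝ) * 6 ≤ n := by exact_mod_cast this
    linarith
  have hg2 : (n : ℝ) - 5 ≤ 6 * g := by
    have : n ≤ 6 * g + 5 := by omega
    have : (n : ℝ) ≤ 6 * g + 5 := by exact_mod_cast this
    linarith
  have hgn : g ≤ n := Nat.div_le_self n 6
  have hx : (n : ℝ) ^ 2 / 12 ≤ n * g - n - 4 := by nlinarith
  -- choose t
  set y : ℝ := (n * g - n - 4 - lq - L) / (2 * L) with hy
  have hy0 : 0 ≤ y := div_nonneg (by nlinarith) (by linarith)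
  set t : ℕ := ⌊y⌋₊ with ht
  have ht1 : (t : ℝ) ≤ y := Nat.floor_le hy0
  have ht2 : y < t + 1 := Nat.lt_floor_add_one y
  have ht3 : (2 * t + 1) * L + lq + 4 + n ≤ n * g := by
    have : (t : ℝ) * (2 * L) ≤ n * g - n - 4 - lq - L := by
      have := ht1
      rw [hy, le_div_iff₀ (by linarith)] at this
      exact this
    nlinarith
  have ht4 : (n : ℝ) ^ 2 / 24 ≤ 2 * L * (t + 1) := by
    have : n * g - n - 4 - lq - L < (t + 1) * (2 * L) := by
      have := ht2
      rw [hy, div_lt_iff₀ (by linarith)] at this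
      exact this
    nlinarith
  have hCQ : ((Fintype.card Q * (Fintype.card Γ ^ K) ^ (2 * t + 1) : ℕ) : ℝ) * 2 ^ 4 * 2 ^ n ≤
      ((2 : ℝ) ^ n) ^ g := by
    have e1 : ((Fintype.card Q * (Fintype.card Γ ^ K) ^ (2 * t + 1) : ℕ) : ℝ) ≤
        (2 : ℝ) ^ (lq + (2 * t + 1) * L) := by
      rw [Real.rpow_add (by norm_num)]
      push_cast
      have e2 : (2 : ℝ) ^ lq = Fintype.card Q := by
        rw [hlq, Real.rpow_logb (by norm_num) (by norm_num) (by exact_mod_cast hQpos)]
      have e3 : (2 : ℝ) ^ ((2 * t + 1) * L) = (((Fintype.card Γ : ℝ) + 1) ^ K) ^ (2 * t + 1) := by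
        rw [hL, show (2 * (t : ℝ) + 1) * (K * Real.logb 2 ((Fintype.card Γ : ℝ) + 1)) =
          Real.logb 2 ((Fintype.card Γ : ℝ) + 1) * ((K * (2 * t + 1) : ℕ) : ℝ) by push_cast; ring,
          Real.rpow_mul (by norm_num), Real.rpow_logb (by norm_num) (by norm_num) (by positivity),
          Real.rpow_natCast, pow_mul]
      rw [e2, e3]
      gcongr
      linarith
    calc ((Fintype.card Q * (Fintype.card Γ ^ K) ^ (2 * t + 1) : ℕ) : ℝ) * 2 ^ 4 * 2 ^ n
        ≤ (2 : ℝ) ^ (lq + (2 * t + 1) * L) * 2 ^ 4 * 2 ^ n := by gcongr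
      _ = (2 : ℝ) ^ (lq + (2 * t + 1) * L + 4 + n) := by
          rw [Real.rpow_add (by norm_num) _ (n : ℝ), Real.rpow_add (by norm_num) _ (4 : ℝ),
            Real.rpow_natCast, Real.rpow_ofNat]
      _ ≤ (2 : ℝ) ^ ((n : ℝ) * g) := by
          apply Real.rpow_le_rpow_of_exponent_le (by norm_num)
          linarith
      _ = ((2 : ℝ) ^ n) ^ g := by
          rw [Real.rpow_mul (by norm_num), Real.rpow_natCast, Real.rpow_natCast]
  have hcard : (Fintype.card (Mat n) : ℝ) = ((2 : ℝ) ^ n) ^ n := by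
    have : Fintype.card (Mat n) = (2 ^ n) ^ n := by
      have : Fintype.card (Fin n → Vec n) = (2 ^ n) ^ n := by simp [ZMod.card]
      exact this
    rw [this]; push_cast; ring
  have hn' : (0 : ℝ) < n := by linarith
  have hC : (Fintype.card (Fin n → Vec n) : ℝ) *
      (((Fintype.card Q * (Fintype.card Γ ^ K) ^ (2 * t + 1) : ℕ) : ℝ) *
        ((2 : ℝ) ^ n * ((2 : ℝ) ^ n) ^ (n - g))) ≤ NN n / 16 := by
    unfold NN
    rw [hcard]
    have h1 : ((2 : ℝ) ^ n) ^ n = ((2 : ℝ) ^ n) ^ g * ((2 : ℝ) ^ n) ^ (n - g) := by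
      rw [← pow_add]
      congr 1
      omega
    rw [h1]
    have h2 : (0 : ℝ) < ((2 : ℝ) ^ n) ^ (n - g) := by positivity
    have h3 : ((Fintype.card Q * (Fintype.card Γ ^ K) ^ (2 * t + 1) : ℕ) : ℝ) *
        ((2 : ℝ) ^ n * ((2 : ℝ) ^ n) ^ (n - g)) ≤
        ((2 : ℝ) ^ n) ^ g * ((2 : ℝ) ^ n) ^ (n - g) / 16 := by
      have : (2 : ℝ) ^ 4 = 16 := by norm_num
      rw [this] at hCQ
      nlinarith
    have h4 : (0 : ℝ) ≤ (Fintype.card (Fin n → Vec n) : ℝ) := by positivity
    nlinarith [mul_le_mul_of_nonneg_left h3 h4]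
  have hB : ∀ q : Fin n, NN n * ((t + 1) * (5 / 96)) ≤
      ∑ M : Mat n, ∑ vs : Fin n → Vec n, ∑ ω, μ ω * (alg.time ω M vs q : ℝ) := by
    intro q
    have h1 : ∀ ω, μ ω * (NN n * ((n : ℝ) * (37 / 48) )) ≤ μ ω * (2 * n *
        (∑ M : Mat n, ∑ vs : Fin n → Vec n,
          (if alg.answer ω M vs q ≠ M.mulVec (vs q) then (1 : ℝ) else 0)) +
        2 * n * (∑ M : Mat n, ∑ vs : Fin n → Vec n,
          (if t < alg.time ω M vs q then (1 : ℝ) else 0))) := by
      intro ω
      apply mul_le_mul_of_nonneg_left _ (hμ.nonneg ω)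
      have h2 := tmStep alg ω q t g (by omega)
      have h3 := mul_le_mul_of_nonneg_left hC hn'.le
      have h4 : NN n * ((n : ℝ) * (5 / 6)) ≤ NN n * ((n : ℝ) - g) := by
        apply mul_le_mul_of_nonneg_left _ hNN.le
        linarith
      have h5 : NN n * ((n : ℝ) * (5 / 6)) - n * (NN n / 16) = NN n * ((n : ℝ) * (37 / 48)) := by
        ring
      linarith
    have h2 := Finset.sum_le_sum (fun ω (_ : ω ∈ (univ : Finset Ω)) => h1 ω)
    rw [← Finset.sum_mul, hμ.sum_one, one_mul] at h2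
    have hsw : ∀ f : Ω → Mat n → (Fin n → Vec n) → ℝ,
        ∑ ω, μ ω * ∑ M : Mat n, ∑ vs : Fin n → Vec n, f ω M vs =
        ∑ M : Mat n, ∑ vs : Fin n → Vec n, ∑ ω, μ ω * f ω M vs := by
      intro f
      simp only [Finset.mul_sum]
      rw [Finset.sum_comm]
      apply Finset.sum_congr rfl
      intro M _
      rw [Finset.sum_comm]
    have h3 : ∀ f g : Ω → ℝ, ∑ ω, μ ω * (2 * n * f ω + 2 * n * g ω) =
        2 * n * ∑ ω, μ ω * f ω + 2 * n * ∑ ω, μ ω * g ω := by
      intro f g
      rw [Finset.mul_sum, Finset.mul_sum, ← Finset.sum_add_distrib]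
      apply Finset.sum_congr rfl
      intro ω _
      ring
    rw [h3, hsw, hsw] at h2
    have h4 : ∑ M : Mat n, ∑ vs : Fin n → Vec n, ∑ ω, μ ω *
        (if alg.answer ω M vs q ≠ M.mulVec (vs q) then (1 : ℝ) else 0) ≤ NN n * (1 / 3) := by
      have := hs q
      rw [avg_eq, div_le_iff₀ (NN_pos n)] at this
      linarith
    have h4' := mul_le_mul_of_nonneg_left h4 (by positivity : (0 : ℝ) ≤ 2 * n)
    have h5 : (n : ℝ) * (NN n * (5 / 96)) ≤ n * ∑ M : Mat n, ∑ vs : Fin n → Vec n, ∑ ω, μ ω *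
          (if t < alg.time ω M vs q then (1 : ℝ) else 0) := by
      have h6 : NN n * ((n : ℝ) * (37 / 48)) - 2 * n * (NN n * (1 / 3)) =
          2 * (n * (NN n * (5 / 96))) := by
        ring
      linarith
    have h6 := le_of_mul_le_mul_left h5 hn'
    calc NN n * (((t : ℝ) + 1) * (5 / 96)) = (t + 1) * (NN n * (5 / 96)) := by ring
      _ ≤ (t + 1) * ∑ M : Mat n, ∑ vs : Fin n → Vec n, ∑ ω, μ ω *
          (if t < alg.time ω M vs q then (1 : ℝ) else 0) := by gcongr
      _ ≤ _ := by
          rw [Finset.mul_sum]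
          apply Finset.sum_le_sum
          intro M _
          rw [Finset.mul_sum]
          apply Finset.sum_le_sum
          intro vs _
          rw [Finset.mul_sum]
          apply Finset.sum_le_sum
          intro ω _
          rw [mul_left_comm]
          apply mul_le_mul_of_nonneg_left _ (hμ.nonneg ω)
          split_ifs with h
          · rw [mul_one]
            exact_mod_cast h
          · simp
  have hsum : ∑ q : Fin n, NN n * (((t : ℝ) + 1) * (5 / 96)) ≤
      ∑ M : Mat n, ∑ vs : Fin n → Vec n, alg.expTime μ M vs := by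
    refine (Finset.sum_le_sum (fun q _ => hB q)).trans (le_of_eq ?_)
    unfold TMAlg.expTime
    rw [Finset.sum_comm]
    apply Finset.sum_congr rfl; intro M _
    rw [Finset.sum_comm]
    apply Finset.sum_congr rfl; intro vs _
    rw [Finset.sum_comm]
    apply Finset.sum_congr rfl; intro ω _
    rw [← Finset.mul_sum]
  simp only [Finset.sum_const, Finset.card_univ, Fintype.card_fin, nsmul_eq_mul] at hsum
  calc (n : ℝ) ^ 3 * NN n = 24 * (n * NN n * ((n : ℝ) ^ 2 / 24)) := by ring
    _ ≤ 24 * (n * NN n * (2 * L * (t + 1))) := by gcongr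
    _ = (4608 / 5) * (L * (n * (NN n * (((t : ℝ) + 1) * (5 / 96))))) := by ring
    _ ≤ 1000 * (L * (n * (NN n * (((t : ℝ) + 1) * (5 / 96))))) := by
        apply mul_le_mul_of_nonneg_right (by norm_num) (by positivity)
    _ ≤ 1000 * (L * (∑ M, ∑ vs, alg.expTime μ M vs)) := by gcongr
    _ = _ := by ring

end tm

end Pool.Agent.H699R2.OMV
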