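import Pool.Agent.H699R2.OMV.Model

/-!
# Online matrix-vector multiplication over `ZMod 2` on multitape Turing machines
-/

namespace Pool.Agent.H699R2.OMV

/-- Head moves. -/
inductive Move : Type
  | left
  | stay
  | right

/-- The displacement of a head move. -/
def Move.off : Move → ℤ
  | .left => -1
  | .stay => 0
  | .right => 1

/-- The contents of `K` two-way infinite tapes over the alphabet `Γ`; the head of each tape is at
position `0`. -/
abbrev Tapes (K : ℕ) (Γ : Type) : Type := Fin K → ℤ → Γ

/-- The symbols under the heads. -/
def Tapes.heads {K : ℕ} {Γ : Type} (T : Tapes K Γ) : Fin K → Γ := fun i => T i 0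

/-- The tapes after the symbols `w` have been written and the heads have been moved by `mv`
(the coordinates are again such that each head is at position `0`). -/
def Tapes.next {K : ℕ} {Γ : Type} (T : Tapes K Γ) (w : Fin K → Γ) (mv : Fin K → Move) :
    Tapes K Γ :=
  fun i z => Function.update (T i) 0 (w i) (z + (mv i).off)

/-- What a machine with `K` tapes does during one query: either halt with an answer, or make a
step, in which it writes symbols, moves the heads and goes on, all depending on
the symbols under the heads. -/
inductive TProg (K : ℕ) (Γ O : Type) : Type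
  | halt : O → TProg K Γ O
  | step : ((Fin K → Γ) → Fin K → Γ) → ((Fin K → Γ) → Fin K → Move) →
      ((Fin K → Γ) → TProg K Γ O) → TProg K Γ O

namespace TProg
variable {K : ℕ} {Γ O : Type}

/-- The answer. -/
def out : TProg K Γ O → Tapes K Γ → O
  | halt o, _ => o
  | step w mv k, T => out (k T.heads) (T.next (w T.heads) (mv T.heads))

/-- The number of steps. -/
def steps : TProg K Γ O → Tapes K Γ → ℕ
  | halt _, _ => 0
  | step w mv k, T => steps (k T.heads) (T.next (w T.heads) (mv T.heads)) + 1

end TProg

/-- A randomised algorithm for online matrix-vector multiplication on a machine with `K` tapes over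
the alphabet `Γ`. `Ω` is the set of outcomes of the coins. `conf ω M h` is the configuration (an
element of `Q` and the contents of the tapes) when the vectors in the list `h` have been processed
(an arbitrary function of the coins, the matrix and the earlier vectors), and `prog ω h v s` is
what the machine does on the next vector `v` when it starts in state `s`. -/
structure TMAlg (n K : ℕ) (Ω Γ Q : Type) where
  conf : Ω → Mat n → List (Vec n) → Q × Tapes K Γ
  prog : Ω → List (Vec n) → Vec n → Q → TProg K Γ (Vec n)

namespace TMAlg
variable {n K : ℕ} {Ω Γ Q : Type}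

/-- The answer to the `q`-th vector of the stream `vs`. -/
def answer (alg : TMAlg n K Ω Γ Q) (ω : Ω) (M : Mat n) (vs : Fin n → Vec n) (q : Fin n) : Vec n :=
  (alg.prog ω (before vs q) (vs q) (alg.conf ω M (before vs q)).1).out
    (alg.conf ω M (before vs q)).2

/-- The number of steps made while the `q`-th vector of the stream `vs` is processed. -/
def time (alg : TMAlg n K Ω Γ Q) (ω : Ω) (M : Mat n) (vs : Fin n → Vec n) (q : Fin n) : ℕ :=
  (alg.prog ω (before vs q) (vs q) (alg.conf ω M (before vs q)).1).steps
    (alg.conf ω M (before vs q)).2

open Classical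

/-- On every input, the probability that some answer is wrong is at most `1/3`. -/
def Solves [Fintype Ω] (alg : TMAlg n K Ω Γ Q) (μ : Ω → ℝ) : Prop :=
  ∀ (M : Mat n) (vs : Fin n → Vec n),
    ∑ ω ∈ Finset.univ.filter (fun ω => ∃ q, alg.answer ω M vs q ≠ M.mulVec (vs q)), μ ω ≤ 1 / 3

/-- On a uniformly random input, each single answer is wrong with probability at most `1/3`. -/
def SolvesOnAverage [Fintype Ω] (alg : TMAlg n K Ω Γ Q) (μ : Ω → ℝ) : Prop :=
  ∀ q : Fin n, avg (fun M vs =>
    ∑ ω, μ ω * (if alg.answer ω M vs q ≠ M.mulVec (vs q) then (1 : ℝ) else 0)) ≤ 1 / 3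

/-- The expected total number of steps on an input. -/
noncomputable def expTime [Fintype Ω] (alg : TMAlg n K Ω Γ Q) (μ : Ω → ℝ) (M : Mat n)
    (vs : Fin n → Vec n) : ℝ := ∑ ω, μ ω * ∑ q, (alg.time ω M vs q : ℝ)

end TMAlg

end Pool.Agent.H699R2.OMV
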